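import Pool.Agent.R979.QC.Lim

set_option autoImplicit false
open Complex Metric Set Filter Topology

namespace Pool.Agent.R979.QC

section

variable {S : ℕ → St} (D : Data S) {f : ℂ → ℂ}
  (hf : ∀ z, Tendsto (fun n => (S n).F z) atTop (𝓝 (f z)))
include D hf

theorem lim_le {y y' z : ℂ} {n : ℕ}
    (h : ∀ j, ‖(S (n + j)).F y - (S (n + j)).F z‖ ≤ 2 * ‖(S (n + j)).F y' - (S (n + j)).F z‖) :
    ‖f y - f z‖ ≤ 2 * ‖f y' - f z‖ := by
  have t1 : Tendsto (fun j => ‖(S (n + j)).F y - (S (n + j)).F z‖) atTop (𝓝 ‖f y - f z‖) := by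
    have := ((hf y).sub (hf z)).norm
    exact this.comp (tendsto_atTop_mono (fun j => Nat.le_add_left j n) tendsto_id)
  have t2 : Tendsto (fun j => 2 * ‖(S (n + j)).F y' - (S (n + j)).F z‖) atTop
      (𝓝 (2 * ‖f y' - f z‖)) := by
    have := (((hf y').sub (hf z)).norm).const_mul 2
    exact this.comp (tendsto_atTop_mono (fun j => Nat.le_add_left j n) tendsto_id)
  exact le_of_tendsto_of_tendsto' t1 t2 h

theorem mq_off_E {z : ℂ} (hz : z.re ∉ E S) : MQ f z := by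
  have h1 : ∃ n, ¬ K S n z.re := by
    by_contra hc
    push Not at hc
    exact hz hc
  obtain ⟨n, hn⟩ := h1
  have hev : ∀ᶠ u in 𝓝 z, ¬ K S n u.re := by
    have ho : IsOpen {u : ℂ | ¬ K S n u.re} := by
      have := (isClosed_K (S := S) n).isOpen_compl.preimage Complex.continuous_re
      exact this
    exact ho.mem_nhds hn
  obtain ⟨δ', hδ', H'⟩ := Metric.eventually_nhds_iff.1 hev
  have hid : ∀ u : ℂ, ‖u - z‖ < δ' → f u = (S n).F u := by
    intro u hu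
    have hk := H' (by rw [dist_eq_norm]; exact hu : dist u z < δ')
    have hc := F_const D hk
    refine tendsto_nhds_unique (hf u) ?_
    refine tendsto_const_nhds.congr' ?_
    filter_upwards [eventually_ge_atTop n] with m hm
    exact (hc m hm).symm
  obtain ⟨δ, hδ, H⟩ := (D.inv n).mq z
  refine ⟨min δ δ', lt_min hδ hδ', fun y y' hyy hy => ?_⟩
  have h1 := lt_of_lt_of_le hy (min_le_left _ _)
  have h2 := lt_of_lt_of_le hy (min_le_right _ _)
  rw [hid y h2, hid y' (by rw [← hyy]; exact h2), hid z (by simpa using hδ')]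
  exact H y y' hyy h1

omit hf in
/-- the center of the stage `n+1` wiggle and the near-similarity there -/
theorem near_center {z : ℂ} (hz : z.re ∈ E S) (n j : ℕ) :
    ∃ l : ℂ, bb n ≤ ‖l‖ ∧
      Near (S n).F (psi (S (n + 1)).X (S (n + 1)).w (T S (n + 1) j z)) l
        (10 * (S (n + 1)).w) (1 / 100000) := by
  apply (D.rel n).near
  apply psi_core (w_pos D (n + 1)) (D.inv (n + 1)).sep (D.rel n).X_eq (w_core D n)
  obtain ⟨p, hp, hzp⟩ := hz (n + 1)
  refine ⟨p, hp, ?_⟩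
  have h1 := T_move D j (n + 1) z
  have h2 := re_near' (p := p) h1
  have h3 := w_step D (n + 1)
  have h4 := w_pos D (n + 1)
  linarith

omit hf in
theorem T_diff (n j : ℕ) (y z : ℂ) :
    ‖(T S n j y - T S n j z) - (y - z)‖ ≤ 8 / 100 * (S (n + 1)).w := by
  have h1 := T_move D j n y
  have h2 := T_move D j n z
  have h3 := norm_sub_le (T S n j y - y) (T S n j z - z)
  have e : (T S n j y - T S n j z) - (y - z) = (T S n j y - y) - (T S n j z - z) := by ring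
  rw [e]; linarith

theorem mq_on_E {z : ℂ} (hz : z.re ∈ E S) : MQ f z := by
  refine ⟨(S 1).w, w_pos D 1, fun y y' hyy hy => ?_⟩
  by_cases h0 : ‖y - z‖ = 0
  · have e1 : y = z := by rwa [norm_eq_zero, sub_eq_zero] at h0
    rw [e1]; simp
  have hr : 0 < ‖y - z‖ := lt_of_le_of_ne (norm_nonneg _) (Ne.symm h0)
  have hex : ∃ k, (S k).w ≤ ‖y - z‖ :=
    (((w_tendsto D).eventually (gt_mem_nhds hr)).exists).imp fun k hk => le_of_lt hk
  classical
  have hk1 := Nat.find_spec hex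
  set k := Nat.find hex with hk
  have hk2 : 2 ≤ k := by
    by_contra hc
    have hcases : k = 0 ∨ k = 1 := by omega
    rcases hcases with h | h
    · rw [h] at hk1
      have := w_step D 0
      have := w_pos D 0
      linarith
    · rw [h] at hk1
      linarith
  obtain ⟨n, hn⟩ : ∃ n, k = n + 2 := ⟨k - 2, by omega⟩
  have hw2 : (S (n + 2)).w ≤ ‖y - z‖ := by rw [← hn]; exact hk1
  have hw1 : ‖y - z‖ < (S (n + 1)).w := by
    have := Nat.find_min hex (m := n + 1) (by omega)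
    exact not_le.1 this
  apply lim_le D hf (n := n + 1)
  intro j
  have hFT : ∀ u, (S (n + 1 + j)).F u
      = (S n).F (psi (S (n + 1)).X (S (n + 1)).w (T S (n + 1) j u)) := by
    intro u
    rw [F_T D j (n + 1) u, (D.rel n).F_eq]
  rw [hFT, hFT, hFT]
  obtain ⟨l, hl, hN⟩ := near_center D hz n j
  have hwp := w_pos D (n + 1)
  have hX := (D.inv (n + 1)).sep
  set a := T S (n + 1) j y with ha
  set a' := T S (n + 1) j y' with ha'
  set b := T S (n + 1) j z with hb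
  have d1 := T_diff D (n + 1) j y z
  have d2 := T_diff D (n + 1) j y' z
  rw [← ha, ← hb] at d1
  rw [← ha', ← hb] at d2
  have e1 : ‖a - b‖ ≤ 108 / 100 * ‖y - z‖ := by
    have := norm_add_le (a - b - (y - z)) (y - z)
    rw [sub_add_cancel] at this
    linarith
  have e2 : ‖a' - b‖ ≤ 108 / 100 * ‖y - z‖ := by
    have := norm_add_le (a' - b - (y' - z)) (y' - z)
    rw [sub_add_cancel, ← hyy] at this
    linarith
  have e3 : 92 / 100 * ‖y - z‖ ≤ ‖a' - b‖ := by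
    have := norm_sub_le (a' - b) (a' - b - (y' - z))
    rw [sub_sub_cancel, ← hyy] at this
    linarith
  have u1 := psi_upper hwp hX a b
  have u2 := psi_upper hwp hX a' b
  have l2 := psi_lower hwp hX a' b
  have a1 := hN.upper (u := psi (S (n + 1)).X (S (n + 1)).w a)
    (v := psi (S (n + 1)).X (S (n + 1)).w b) (by linarith) (by simp; linarith)
  have a2 := hN.lower (u := psi (S (n + 1)).X (S (n + 1)).w a')
    (v := psi (S (n + 1)).X (S (n + 1)).w b) (by linarith) (by simp; linarith)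
  have hl0 := norm_nonneg l
  have b1 : ‖l‖ * ‖psi (S (n + 1)).X (S (n + 1)).w a - psi (S (n + 1)).X (S (n + 1)).w b‖
      ≤ ‖l‖ * (109 / 100 * (108 / 100 * ‖y - z‖)) :=
    mul_le_mul_of_nonneg_left (by linarith) hl0
  have b2 : ‖l‖ * (91 / 100 * (92 / 100 * ‖y - z‖))
      ≤ ‖l‖ * ‖psi (S (n + 1)).X (S (n + 1)).w a' - psi (S (n + 1)).X (S (n + 1)).w b‖ :=
    mul_le_mul_of_nonneg_left (by linarith) hl0
  have hp : 0 ≤ ‖l‖ * ‖y - z‖ := by positivity
  nlinarith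

omit hf in
/-- the shape of the stage maps at scale `w (n+1)` on a vertical line over `E` -/
theorem shape_stage {z : ℂ} (hz : z.re ∈ E S) (n : ℕ) : ∃ (θ : ℝ) (l : ℂ), 1 / 2 ≤ ‖l‖ ∧
    ∀ τ : ℝ, 0 ≤ τ → τ ≤ 7 → ∀ j : ℕ,
    ‖(S (n + 1 + j)).F (z + I * ((τ * (S (n + 1)).w : ℝ) : ℂ)) - (S (n + 1 + j)).F z
      - l * (((S (n + 1)).w : ℂ) * (I * (τ : ℂ)
        + (1 / 100 : ℂ) * ((Real.sin (θ + τ) : ℂ) - (Real.sin θ : ℂ))))‖
      ≤ 1 / 5000 * ‖l‖ * (S (n + 1)).w := by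
  obtain ⟨p, hp, hzp⟩ := hz (n + 1)
  have hw2 := w_step D (n + 1)
  have hwp := w_pos D (n + 1)
  have hwp2 := w_pos D (n + 1 + 1)
  have hX := (D.inv (n + 1)).sep
  obtain ⟨l, hl, hN⟩ := near_center D hz n 0
  simp only [T] at hN
  set w : ℝ := (S (n + 1)).w with hw
  set W2 : ℝ := (S (n + 1 + 1)).w with hW2
  set X := (S (n + 1)).X with hXdef
  have hwc : (w : ℂ) ≠ 0 := by exact_mod_cast hwp.ne'
  set ζ : ℂ := (z - (p : ℂ)) / (w : ℂ) with hζ
  have hζre : |ζ.re| ≤ 1 / 100000 := by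
    rw [hζ, re_div, abs_div, abs_of_pos hwp, div_le_iff₀ hwp]
    linarith
  refine ⟨ζ.im, l, (bb_half n).trans hl, ?_⟩
  intro τ hτ0 hτ7 j
  have hFT : ∀ u, (S (n + 1 + j)).F u = (S n).F (psi X w (T S (n + 1) j u)) := by
    intro u
    rw [F_T D j (n + 1) u, (D.rel n).F_eq]
  set h : ℂ := I * ((τ * w : ℝ) : ℂ) with hh
  have hnh : ‖h‖ ≤ 7 * w := by
    rw [hh, norm_mul, Complex.norm_I, one_mul, Complex.norm_real, Real.norm_eq_abs,
      abs_of_nonneg (by positivity)]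
    nlinarith
  rw [hFT, hFT]
  set a := T S (n + 1) j (z + h) with ha
  set b := T S (n + 1) j z with hb
  have m1 : ‖a - (z + h)‖ ≤ 4 / 100 * W2 := T_move D j (n + 1) (z + h)
  have m2 : ‖b - z‖ ≤ 4 / 100 * W2 := T_move D j (n + 1) z
  have p1 := psi_upper hwp hX a (z + h)
  have p2 := psi_upper hwp hX b z
  have p3 := psi_upper hwp hX a z
  have p4 := psi_upper hwp hX a b
  have q1 : ‖a - z‖ ≤ 71 / 10 * w := by
    have := norm_add_le (a - (z + h)) h
    rw [show a - (z + h) + h = a - z by ring] at this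
    linarith
  have q2 : ‖a - b‖ ≤ 71 / 10 * w := by
    have h1 := norm_sub_le (a - (z + h) + h) (b - z)
    rw [show a - (z + h) + h - (b - z) = a - b by ring] at h1
    have h2 := norm_add_le (a - (z + h)) h
    linarith
  have near := hN (psi X w a) (psi X w b) (by linarith) (by linarith)
  -- the explicit displacement of the wiggle
  have hrezh : (z + h).re = z.re := by
    rw [hh, Complex.add_re, Complex.re_mul_ofReal, Complex.I_re]; ring
  have e1 : psi X w (z + h) = z + h + (1 / 100 : ℂ) * ((w : ℂ) * Th (ζ + I * (τ:ℂ))) := by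
    rw [psi_eq hwp hX hp (by rw [hrezh]; linarith)]
    have : (z + h - (p : ℂ)) / (w:ℂ) = ζ + I * (τ:ℂ) := by
      rw [hζ, hh]; push_cast; field_simp; ring
    rw [this]
  have e2 : psi X w z = z + (1 / 100 : ℂ) * ((w : ℂ) * Th ζ) := by
    rw [psi_eq hwp hX hp (by linarith)]
  have t1 : ‖Th (ζ + I * (τ:ℂ)) - (Real.sin (ζ.im + τ) : ℂ)‖ ≤ 9 / 100000 := by
    rw [← Th_vert]
    refine (Th_lip _ _).trans ?_
    have : ζ + I * (τ:ℂ) - I * ((ζ.im + τ : ℝ) : ℂ) = (ζ.re : ℂ) := by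
      have := Complex.re_add_im ζ
      push_cast
      linear_combination (-1:ℂ) * this
    rw [this, Complex.norm_real, Real.norm_eq_abs]
    linarith
  have t2 : ‖Th ζ - (Real.sin ζ.im : ℂ)‖ ≤ 9 / 100000 := by
    rw [← Th_vert]
    refine (Th_lip _ _).trans ?_
    have : ζ - I * ((ζ.im : ℝ) : ℂ) = (ζ.re : ℂ) := by
      have := Complex.re_add_im ζ
      linear_combination (-1:ℂ) * this
    rw [this, Complex.norm_real, Real.norm_eq_abs]
    linarith
  set B : ℂ := (w : ℂ) * (I * (τ : ℂ)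
        + (1 / 100 : ℂ) * ((Real.sin (ζ.im + τ) : ℂ) - (Real.sin ζ.im : ℂ))) with hB
  have e3 : psi X w a - psi X w b - B = (psi X w a - psi X w (z + h)) - (psi X w b - psi X w z)
      + (1 / 100 : ℂ) * ((w : ℂ) * ((Th (ζ + I * (τ:ℂ)) - (Real.sin (ζ.im + τ) : ℂ))
        - (Th ζ - (Real.sin ζ.im : ℂ)))) := by
    rw [e1, e2, hB, hh]; push_cast; ring
  have n1 : ‖psi X w a - psi X w b - B‖ ≤ 1 / 100000 * w := by
    rw [e3]
    have k1 := norm_add_le ((psi X w a - psi X w (z + h)) - (psi X w b - psi X w z))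
      ((1 / 100 : ℂ) * ((w : ℂ) * ((Th (ζ + I * (τ:ℂ)) - (Real.sin (ζ.im + τ) : ℂ))
        - (Th ζ - (Real.sin ζ.im : ℂ)))))
    have k2 := norm_sub_le (psi X w a - psi X w (z + h)) (psi X w b - psi X w z)
    have k3 := norm_sub_le (Th (ζ + I * (τ:ℂ)) - (Real.sin (ζ.im + τ) : ℂ))
      (Th ζ - (Real.sin ζ.im : ℂ))
    have k4 : ‖(1 / 100 : ℂ) * ((w : ℂ) * ((Th (ζ + I * (τ:ℂ)) - (Real.sin (ζ.im + τ) : ℂ))
        - (Th ζ - (Real.sin ζ.im : ℂ))))‖ ≤ 1 / 100 * (w * (18 / 100000)) := by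
      rw [norm_mul, norm_mul, norm_hundred, Complex.norm_real, Real.norm_eq_abs,
        abs_of_pos hwp]
      gcongr
      linarith
    linarith
  have e4 : (S n).F (psi X w a) - (S n).F (psi X w b) - l * B
      = ((S n).F (psi X w a) - (S n).F (psi X w b) - l * (psi X w a - psi X w b))
        + l * (psi X w a - psi X w b - B) := by ring
  rw [e4]
  have k5 := norm_add_le ((S n).F (psi X w a) - (S n).F (psi X w b)
    - l * (psi X w a - psi X w b)) (l * (psi X w a - psi X w b - B))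
  have hl0 := norm_nonneg l
  have k6 : ‖l * (psi X w a - psi X w b - B)‖ ≤ ‖l‖ * (1 / 100000 * w) := by
    rw [norm_mul]; exact mul_le_mul_of_nonneg_left n1 hl0
  have k7 : 1 / 100000 * ‖l‖ * ‖psi X w a - psi X w b‖ ≤ 1 / 100000 * ‖l‖ * (8 * w) := by
    apply mul_le_mul_of_nonneg_left _ (by positivity)
    linarith
  have k8 : 0 ≤ ‖l‖ * w := by positivity
  nlinarith

theorem shape {z : ℂ} (hz : z.re ∈ E S) (n : ℕ) : ∃ (θ : ℝ) (l : ℂ), 1 / 2 ≤ ‖l‖ ∧
    ∀ τ : ℝ, 0 ≤ τ → τ ≤ 7 →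
    ‖f (z + I * ((τ * (S (n + 1)).w : ℝ) : ℂ)) - f z
      - l * (((S (n + 1)).w : ℂ) * (I * (τ : ℂ)
        + (1 / 100 : ℂ) * ((Real.sin (θ + τ) : ℂ) - (Real.sin θ : ℂ))))‖
      ≤ 1 / 5000 * ‖l‖ * (S (n + 1)).w := by
  obtain ⟨θ, l, hl, H⟩ := shape_stage D hz n
  refine ⟨θ, l, hl, fun τ h0 h7 => ?_⟩
  have t1 : Tendsto (fun j => ‖(S (n + 1 + j)).F (z + I * ((τ * (S (n + 1)).w : ℝ) : ℂ))
      - (S (n + 1 + j)).F z
      - l * (((S (n + 1)).w : ℂ) * (I * (τ : ℂ)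
        + (1 / 100 : ℂ) * ((Real.sin (θ + τ) : ℂ) - (Real.sin θ : ℂ))))‖) atTop
      (𝓝 ‖f (z + I * ((τ * (S (n + 1)).w : ℝ) : ℂ)) - f z
      - l * (((S (n + 1)).w : ℂ) * (I * (τ : ℂ)
        + (1 / 100 : ℂ) * ((Real.sin (θ + τ) : ℂ) - (Real.sin θ : ℂ))))‖) := by
    have := (((hf (z + I * ((τ * (S (n + 1)).w : ℝ) : ℂ))).sub (hf z)).sub_const
      (l * (((S (n + 1)).w : ℂ) * (I * (τ : ℂ)
        + (1 / 100 : ℂ) * ((Real.sin (θ + τ) : ℂ) - (Real.sin θ : ℂ)))))).norm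
    exact this.comp (tendsto_atTop_mono (fun j => Nat.le_add_left j (n + 1)) tendsto_id)
  exact le_of_tendsto' t1 (fun j => H τ h0 h7 j)

omit D hf in
theorem trig_contra {θ : ℝ} {l D' : ℂ} (hl : 1 / 2 ≤ ‖l‖)
    (H : ∀ τ : ℝ, 0 ≤ τ → τ ≤ 7 →
      ‖l * (I * (τ : ℂ) + (1 / 100 : ℂ) * ((Real.sin (θ + τ) : ℂ) - (Real.sin θ : ℂ)))
        - (τ : ℂ) * D'‖ ≤ 9 / 10000 * ‖l‖) : False := by
  have hpi3 := Real.pi_gt_three
  have hpi4 := Real.pi_lt_d2
  have h1 := H (2 * Real.pi) (by positivity) (by linarith)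
  have h2 := H Real.pi (by positivity) (by linarith)
  have h3 := H (Real.pi / 2) (by positivity) (by linarith)
  rw [Real.sin_add_two_pi] at h1
  rw [Real.sin_add_pi] at h2
  rw [Real.sin_add_pi_div_two] at h3
  set A1 := l * (I * ((2 * Real.pi : ℝ) : ℂ) + (1 / 100 : ℂ) * ((Real.sin θ : ℂ) - (Real.sin θ : ℂ)))
        - ((2 * Real.pi : ℝ) : ℂ) * D' with hA1
  set A2 := l * (I * ((Real.pi : ℝ) : ℂ) + (1 / 100 : ℂ) * (((-Real.sin θ : ℝ) : ℂ) - (Real.sin θ : ℂ)))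
        - ((Real.pi : ℝ) : ℂ) * D' with hA2
  set A3 := l * (I * ((Real.pi / 2 : ℝ) : ℂ) + (1 / 100 : ℂ) * ((Real.cos θ : ℂ) - (Real.sin θ : ℂ)))
        - ((Real.pi / 2 : ℝ) : ℂ) * D' with hA3
  have e2 : l * (((1 / 100 * (-2 * Real.sin θ) : ℝ)) : ℂ) = A2 - (1 / 2 : ℂ) * A1 := by
    rw [hA1, hA2]; push_cast; ring
  have e3 : l * (((1 / 100 * (Real.cos θ - Real.sin θ) : ℝ)) : ℂ) = A3 - (1 / 4 : ℂ) * A1 := by
    rw [hA1, hA3]; push_cast; ring
  have hlpos : 0 < ‖l‖ := by linarith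
  have n2 : ‖l‖ * |1 / 100 * (-2 * Real.sin θ)| ≤ 135 / 100000 * ‖l‖ := by
    have h4 := congrArg norm e2
    rw [norm_mul, Complex.norm_real, Real.norm_eq_abs] at h4
    rw [h4]
    have h5 := norm_sub_le A2 ((1 / 2 : ℂ) * A1)
    have h6 : ‖(1 / 2 : ℂ) * A1‖ = 1 / 2 * ‖A1‖ := by rw [norm_mul]; simp
    linarith
  have n3 : ‖l‖ * |1 / 100 * (Real.cos θ - Real.sin θ)| ≤ 135 / 100000 * ‖l‖ := by
    have h4 := congrArg norm e3
    rw [norm_mul, Complex.norm_real, Real.norm_eq_abs] at h4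
    rw [h4]
    have h5 := norm_sub_le A3 ((1 / 4 : ℂ) * A1)
    have h6 : ‖(1 / 4 : ℂ) * A1‖ = 1 / 4 * ‖A1‖ := by rw [norm_mul]; simp
    linarith
  have m2 : |1 / 100 * (-2 * Real.sin θ)| ≤ 135 / 100000 := by
    by_contra hc; push Not at hc; nlinarith
  have m3 : |1 / 100 * (Real.cos θ - Real.sin θ)| ≤ 135 / 100000 := by
    by_contra hc; push Not at hc; nlinarith
  rw [abs_le] at m2 m3
  have := Real.sin_sq_add_cos_sq θ
  have s1 : -(1/10) ≤ Real.sin θ := by linarith [m2.1, m2.2]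
  have s2 : Real.sin θ ≤ 1/10 := by linarith [m2.1, m2.2]
  have c1 : -(1/2) ≤ Real.cos θ := by linarith [m3.1, m3.2]
  have c2 : Real.cos θ ≤ 1/2 := by linarith [m3.1, m3.2]
  nlinarith

/-- `f` is not differentiable along vertical lines over `E` -/
theorem not_diff {x y : ℝ} (hx : x ∈ E S) :
    ¬ DifferentiableAt ℝ (fun t : ℝ => f ((x : ℂ) + (t : ℂ) * I)) y := by
  intro hd
  have h1 := hasDerivAt_iff_isLittleO.1 hd.hasDerivAt
  set D' := deriv (fun t : ℝ => f ((x : ℂ) + (t : ℂ) * I)) y with hD'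
  have h2 := h1.def (show (0:ℝ) < 1 / 20000 by norm_num)
  obtain ⟨δ, hδ, H⟩ := Metric.eventually_nhds_iff.1 h2
  have h3 := (w_tendsto D).eventually (gt_mem_nhds (show (0:ℝ) < δ / 10 by linarith))
  obtain ⟨n, hn⟩ := h3.exists
  have hws := w_step D n
  have hwp := w_pos D (n + 1)
  have hwp0 := w_pos D n
  set z : ℂ := (x : ℂ) + (y : ℂ) * I with hz
  have hzre : z.re ∈ E S := by
    have : z.re = x := by rw [hz]; simp
    rw [this]; exact hx
  obtain ⟨θ, l, hl, Hs⟩ := shape D hf hzre n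
  set w := (S (n + 1)).w with hw
  apply trig_contra (θ := θ) (D' := D') hl
  intro τ h0 h7
  have a1 := Hs τ h0 h7
  have hdist : dist (y + τ * w) y < δ := by
    rw [Real.dist_eq, add_sub_cancel_left, abs_of_nonneg (by positivity)]
    nlinarith
  have a2 := H hdist
  have ez : (x : ℂ) + ((y + τ * w : ℝ) : ℂ) * I = z + I * ((τ * w : ℝ) : ℂ) := by
    rw [hz]; push_cast; ring
  rw [ez, add_sub_cancel_left, Real.norm_eq_abs, abs_of_nonneg (by positivity)] at a2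
  set P := f (z + I * ((τ * w : ℝ) : ℂ)) - f z with hP
  set Q := I * (τ : ℂ) + (1 / 100 : ℂ) * ((Real.sin (θ + τ) : ℂ) - (Real.sin θ : ℂ)) with hQ
  have e : (w : ℂ) * (l * Q - (τ : ℂ) * D') = (P - (τ * w : ℝ) • D') - (P - l * ((w:ℂ) * Q)) := by
    rw [Complex.real_smul]; push_cast; ring
  have b1 : w * ‖l * Q - (τ : ℂ) * D'‖ ≤ 1 / 20000 * (τ * w) + 1 / 5000 * ‖l‖ * w := by
    have h4 := congrArg norm e
    rw [norm_mul, Complex.norm_real, Real.norm_eq_abs, abs_of_pos hwp] at h4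
    rw [h4]
    have h5 := norm_sub_le (P - (τ * w : ℝ) • D') (P - l * ((w:ℂ) * Q))
    linarith
  have b2 : w * ‖l * Q - (τ : ℂ) * D'‖ ≤ w * (9 / 10000 * ‖l‖) := by
    refine b1.trans ?_
    have : τ * w ≤ 7 * w := mul_le_mul_of_nonneg_right h7 hwp.le
    have h6 : 1 / 2 * w ≤ ‖l‖ * w := mul_le_mul_of_nonneg_right hl hwp.le
    nlinarith
  exact le_of_mul_le_mul_left b2 hwp

end

/-- transfer of variation along a non-monotone continuous parameter -/
theorem bv_transfer {σ : ℝ → ℂ} {Y : ℝ → ℝ} {a b : ℝ} (hab : a ≤ b)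
    (hY : ContinuousOn Y (Icc a b)) (h : Y a ≤ Y b) :
    eVariationOn σ (Icc (Y a) (Y b)) ≤ eVariationOn (σ ∘ Y) (Icc a b) := by
  set φ : ℝ → ℝ := fun v => sInf {τ | τ ∈ Icc a b ∧ v ≤ Y τ} with hφ
  have hne : ∀ v ≤ Y b, ({τ | τ ∈ Icc a b ∧ v ≤ Y τ}).Nonempty := fun v hv =>
    ⟨b, ⟨hab, le_rfl⟩, hv⟩
  have hbdd : ∀ v, BddBelow {τ | τ ∈ Icc a b ∧ v ≤ Y τ} := fun v => ⟨a, fun τ hτ => hτ.1.1⟩
  have hclosed : ∀ v, IsClosed {τ | τ ∈ Icc a b ∧ v ≤ Y τ} := by
    intro v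
    have : {τ | τ ∈ Icc a b ∧ v ≤ Y τ} = Icc a b ∩ Y ⁻¹' (Ici v) := by ext τ; simp
    rw [this]
    exact hY.preimage_isClosed_of_isClosed isClosed_Icc isClosed_Ici
  have hmem : ∀ v ≤ Y b, φ v ∈ Icc a b ∧ v ≤ Y (φ v) := fun v hv =>
    (hclosed v).csInf_mem (hne v hv) (hbdd v)
  have hval : ∀ v ∈ Icc (Y a) (Y b), Y (φ v) = v := by
    intro v hv
    obtain ⟨h1, h2⟩ := hmem v hv.2
    refine le_antisymm ?_ h2
    by_contra hc
    push Not at hc
    have hsub : ContinuousOn Y (Icc a (φ v)) := hY.mono (Icc_subset_Icc_right h1.2)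
    have hivt := intermediate_value_Icc h1.1 hsub
    obtain ⟨τ, hτ, hτv⟩ := hivt (show v ∈ Icc (Y a) (Y (φ v)) from ⟨hv.1, h2⟩)
    have h3 : φ v ≤ τ := csInf_le (hbdd v) ⟨⟨hτ.1, hτ.2.trans h1.2⟩, hτv.ge⟩
    have h4 : τ = φ v := le_antisymm hτ.2 h3
    rw [h4] at hτv
    linarith
  have hmono : MonotoneOn φ (Icc (Y a) (Y b)) := by
    intro v hv v' hv' hvv'
    apply csInf_le_csInf (hbdd v) (hne v' hv'.2)
    intro τ hτ
    exact ⟨hτ.1, hvv'.trans hτ.2⟩
  have h1 : eVariationOn σ (Icc (Y a) (Y b)) = eVariationOn ((σ ∘ Y) ∘ φ) (Icc (Y a) (Y b)) := by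
    apply eVariationOn.eq_of_eqOn
    intro v hv
    simp only [Function.comp]
    rw [hval v hv]
  rw [h1]
  exact eVariationOn.comp_le_of_monotoneOn _ φ hmono (fun v hv => (hmem v hv.2).1)

/-- if `σ ∘ Y` has bounded variation and `Y` is continuous and not constant then `σ` is
differentiable somewhere -/
theorem exists_diff {σ : ℝ → ℂ} {Y : ℝ → ℝ} (hY : ContinuousOn Y (Icc 0 1))
    (hbv : BoundedVariationOn (σ ∘ Y) (Icc 0 1)) {s t : ℝ} (hs : s ∈ Icc (0:ℝ) 1)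
    (ht : t ∈ Icc (0:ℝ) 1) (hst : s < t) (hne : Y s ≠ Y t) : ∃ y, DifferentiableAt ℝ σ y := by
  have hsub : Icc s t ⊆ Icc (0:ℝ) 1 := Icc_subset_Icc hs.1 ht.2
  have key : ∃ a b : ℝ, a < b ∧ BoundedVariationOn σ (Icc a b) := by
    rcases lt_or_gt_of_ne hne with h | h
    · refine ⟨Y s, Y t, h, ?_⟩
      have h1 := bv_transfer (σ := σ) hst.le (hY.mono hsub) h.le
      have h2 := eVariationOn.mono (σ ∘ Y) hsub
      exact ne_top_of_le_ne_top hbv (h1.trans h2)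
    · refine ⟨Y t, Y s, h, ?_⟩
      have hY' : ContinuousOn (fun τ => Y (-τ)) (Icc (-t) (-s)) := by
        apply (hY.mono hsub).comp continuous_neg.continuousOn
        intro τ hτ
        exact ⟨by linarith [hτ.2], by linarith [hτ.1]⟩
      have h1 := bv_transfer (σ := σ) (Y := fun τ => Y (-τ)) (a := -t) (b := -s) (by linarith)
        hY' (by simpa using h.le)
      simp only [neg_neg] at h1
      have h2 : eVariationOn ((σ ∘ Y) ∘ (fun τ : ℝ => -τ)) (Icc (-t) (-s))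
          ≤ eVariationOn (σ ∘ Y) (Icc 0 1) := by
        apply eVariationOn.comp_le_of_antitoneOn
        · intro u _ v _ huv; simpa using huv
        · intro τ hτ
          exact hsub ⟨by linarith [hτ.2], by linarith [hτ.1]⟩
      exact ne_top_of_le_ne_top hbv (h1.trans h2)
  obtain ⟨a, b, hab, hbv'⟩ := key
  have hu : uIcc a b = Icc a b := uIcc_of_le hab.le
  rw [← hu] at hbv'
  have hae := hbv'.ae_differentiableAt_of_mem_uIcc
  rw [hu] at hae
  have hpos : MeasureTheory.volume (Icc a b) ≠ 0 := by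
    rw [Real.volume_Icc]
    simp [hab]
  by_contra hc
  push Not at hc
  apply hpos
  rw [MeasureTheory.ae_iff] at hae
  refine MeasureTheory.measure_mono_null ?_ hae
  intro x hx
  simp only [mem_ofPred_eq, Classical.not_imp]
  exact ⟨hx, hc x⟩

theorem main : ∃ f : ℂ ≃ₜ ℂ,
      (∃ H : ℝ, ∀ x : ℂ, ∃ δ > (0 : ℝ), ∀ y z : ℂ,
          dist y x = dist z x → dist y x < δ →
            dist (f y) (f x) ≤ H * dist (f z) (f x)) ∧
      ∃ E : Set ℝ, ¬ E.Countable ∧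
        ∀ γ : ℝ → ℂ, ContinuousOn γ (Set.Icc 0 1) →
          BoundedVariationOn γ (Set.Icc 0 1) →
          (∀ t ∈ Set.Icc (0 : ℝ) 1, γ t ∈ f '' {z : ℂ | z.re ∈ E}) →
          ∀ s ∈ Set.Icc (0 : ℝ) 1, ∀ t ∈ Set.Icc (0 : ℝ) 1, γ s = γ t := by
  obtain ⟨S, hS1, hS2, hS3⟩ := exists_seq
  have D : Data S := ⟨hS1, hS2, hS3⟩
  obtain ⟨f, hf⟩ := exists_limit D
  refine ⟨f, ⟨2, ?_⟩, E S, E_uncountable D, ?_⟩
  · intro x
    have hm : MQ f x := by
      by_cases hx : x.re ∈ E S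
      · exact mq_on_E D hf hx
      · exact mq_off_E D hf hx
    obtain ⟨δ, hδ, H⟩ := hm
    refine ⟨δ, hδ, fun y z hyz hy => ?_⟩
    simp only [dist_eq_norm] at hyz hy ⊢
    exact H y z hyz hy
  · intro γ hγ hbv hmem
    set G : ℝ → ℂ := fun t => f.symm (γ t) with hG
    have hGc : ContinuousOn G (Icc 0 1) := f.symm.continuous.comp_continuousOn hγ
    have hGE : ∀ t ∈ Icc (0:ℝ) 1, (G t).re ∈ E S := by
      intro t ht
      obtain ⟨z, hz, hzt⟩ := hmem t ht
      have : G t = z := by rw [hG]; simp only; rw [← hzt, f.symm_apply_apply]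
      rw [this]; exact hz
    have hre : ∀ s ∈ Icc (0:ℝ) 1, ∀ t ∈ Icc (0:ℝ) 1, (G s).re = (G t).re := by
      intro s hs t ht
      by_contra hne
      have hc : ContinuousOn (fun τ => (G τ).re) (uIcc s t) :=
        (Complex.continuous_re.comp_continuousOn hGc).mono (uIcc_subset_Icc hs ht)
      have hivt := intermediate_value_uIcc hc
      have hsubE : uIcc (G s).re (G t).re ⊆ E S := by
        intro v hv
        obtain ⟨τ, hτ, rfl⟩ := hivt hv
        exact hGE τ (uIcc_subset_Icc hs ht hτ)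
      have hlt : min (G s).re (G t).re < max (G s).re (G t).re := by
        rw [min_lt_max]; exact hne
      exact E_no_interval D hlt hsubE
    have h0 : (0:ℝ) ∈ Icc (0:ℝ) 1 := ⟨le_rfl, zero_le_one⟩
    set x0 := (G 0).re with hx0
    set Y : ℝ → ℝ := fun t => (G t).im with hYdef
    have hYc : ContinuousOn Y (Icc 0 1) := Complex.continuous_im.comp_continuousOn hGc
    have hGY : ∀ t ∈ Icc (0:ℝ) 1, G t = (x0 : ℂ) + (Y t : ℂ) * I := by
      intro t ht
      rw [hx0, hre 0 h0 t ht]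
      exact (Complex.re_add_im (G t)).symm
    set σ : ℝ → ℂ := fun y => f ((x0 : ℂ) + (y : ℂ) * I) with hσ
    have hγσ : ∀ t ∈ Icc (0:ℝ) 1, γ t = (σ ∘ Y) t := by
      intro t ht
      have h1 : f (G t) = γ t := f.apply_symm_apply (γ t)
      rw [← h1, hGY t ht]; rfl
    have hbv' : BoundedVariationOn (σ ∘ Y) (Icc 0 1) := by
      have : eVariationOn (σ ∘ Y) (Icc 0 1) = eVariationOn γ (Icc 0 1) :=
        eVariationOn.eq_of_eqOn (fun t ht => (hγσ t ht).symm)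
      unfold BoundedVariationOn
      rw [this]
      exact hbv
    have hYconst : ∀ s ∈ Icc (0:ℝ) 1, ∀ t ∈ Icc (0:ℝ) 1, s < t → Y s = Y t := by
      intro s hs t ht hst
      by_contra hne
      obtain ⟨y, hy⟩ := exists_diff hYc hbv' hs ht hst hne
      exact not_diff D hf (hGE 0 h0) hy
    intro s hs t ht
    rw [hγσ s hs, hγσ t ht]
    have : Y s = Y t := by
      rcases lt_trichotomy s t with h | h | h
      · exact hYconst s hs t ht h
      · rw [h]
      · exact (hYconst t ht s hs h).symm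
    simp only [Function.comp]
    rw [this]

end Pool.Agent.R979.QC
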