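import Pool.Agent.R979.QC.Step

set_option autoImplicit false
open Complex Metric Set Filter Topology

namespace Pool.Agent.R979.QC

/-- all data of the construction -/
structure Data (S : ℕ → St) : Prop where
  inv : ∀ n, Inv n (S n)
  rel : ∀ n, Rel n (S n) (S (n + 1))
  zero : (S 0).X = {0}

section

variable {S : ℕ → St} (D : Data S)
include D

theorem w_pos (n : ℕ) : 0 < (S n).w := (D.inv n).w_pos

theorem w_step (n : ℕ) : (S (n + 1)).w ≤ 1 / 1000000 * (S n).w := by
  have h1 := (D.rel n).w_le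
  have h2 := eta_le n
  have h3 := w_pos D n
  have h4 : eta n * (S n).w ≤ 1 / 16 * (S n).w := mul_le_mul_of_nonneg_right h2 h3.le
  nlinarith

theorem w_core (n : ℕ) : 10 * (S (n + 1)).w ≤ eta n * (S n).w := by
  have h1 := (D.rel n).w_le
  have h3 : 0 < eta n * (S n).w := mul_pos (eta_pos n) (w_pos D n)
  nlinarith

theorem w_tendsto : Tendsto (fun n => (S n).w) atTop (𝓝 0) := by
  have h : Tendsto (fun n : ℕ => (1 / 10 : ℝ) ^ n) atTop (𝓝 0) :=
    tendsto_pow_atTop_nhds_zero_of_lt_one (by norm_num) (by norm_num)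
  exact squeeze_zero (fun n => (w_pos D n).le) (fun n => (D.inv n).w_le) h

end

/-- the neighbourhood of the centers at stage `n` -/
def K (S : ℕ → St) (n : ℕ) (x : ℝ) : Prop := ∃ p ∈ (S n).X, |x - p| ≤ 5 * (S (n + 1)).w

def E (S : ℕ → St) : Set ℝ := {x | ∀ n, K S n x}

section

variable {S : ℕ → St} (D : Data S)
include D

theorem mem_X_step {n : ℕ} {p : ℝ} (hp : p ∈ (S (n + 1)).X) :
    ∃ q ∈ (S n).X, |p - q| ≤ 3 * (S (n + 1)).w := by
  rw [(D.rel n).X_eq] at hp
  exact mem_step (w_pos D (n + 1)) hp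

theorem K_anti {n : ℕ} {x : ℝ} (h : K S (n + 1) x) : K S n x := by
  obtain ⟨p, hp, hx⟩ := h
  obtain ⟨q, hq, hpq⟩ := mem_X_step D hp
  refine ⟨q, hq, ?_⟩
  have h1 : |x - q| ≤ |x - p| + |p - q| := abs_sub_le _ _ _
  have h2 := w_step D (n + 1)
  have h3 := w_pos D (n + 1)
  linarith

theorem K_mono {n m : ℕ} (hnm : n ≤ m) {x : ℝ} (h : K S m x) : K S n x := by
  induction m, hnm using Nat.le_induction with
  | base => exact h
  | succ m _ ih => exact ih (K_anti D h)

theorem X_mono {n m : ℕ} (hnm : n ≤ m) {p : ℝ} (hp : p ∈ (S n).X) : p ∈ (S m).X := by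
  induction m, hnm using Nat.le_induction with
  | base => exact hp
  | succ m _ ih => rw [(D.rel m).X_eq]; exact Finset.mem_union_left _ ih

theorem X_sub_E {n : ℕ} {p : ℝ} (hp : p ∈ (S n).X) : p ∈ E S := by
  intro m
  have h : K S (max n m) p := ⟨p, X_mono D (le_max_left _ _) hp, by
    have := w_pos D (max n m + 1)
    simp; exact this.le⟩
  exact K_mono D (le_max_right _ _) h

theorem psi_id_off {n : ℕ} {z : ℂ} (h : ¬ K S n z.re) :
    psi (S (n + 1)).X (S (n + 1)).w z = z := by
  apply psi_id (w_pos D (n + 1))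
  intro p hp
  by_contra hc
  push Not at hc
  obtain ⟨q, hq, hpq⟩ := mem_X_step D hp
  apply h
  refine ⟨q, hq, ?_⟩
  have h1 : |z.re - q| ≤ |z.re - p| + |p - q| := abs_sub_le _ _ _
  have h3 := w_pos D (n + 1)
  linarith

theorem F_const {n : ℕ} {z : ℂ} (h : ¬ K S n z.re) : ∀ m, n ≤ m → (S m).F z = (S n).F z := by
  intro m hm
  induction m, hm using Nat.le_induction with
  | base => rfl
  | succ m hm ih =>
    rw [(D.rel m).F_eq, psi_id_off D (fun hk => h (K_mono D hm hk)), ih]

omit D in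
theorem isClosed_K (n : ℕ) : IsClosed {x : ℝ | K S n x} := by
  have : {x : ℝ | K S n x} = ⋃ p ∈ (S n).X, {x : ℝ | |x - p| ≤ 5 * (S (n + 1)).w} := by
    ext x; simp [K]
  rw [this]
  apply Set.Finite.isClosed_biUnion (Finset.finite_toSet _)
  intro p _
  exact isClosed_le (by fun_prop) continuous_const

omit D in
theorem isClosed_E : IsClosed (E S) := by
  have : E S = ⋂ n, {x : ℝ | K S n x} := by ext x; simp [E]
  rw [this]
  exact isClosed_iInter fun n => isClosed_K n

theorem preperfect_E : Preperfect (E S) := by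
  rw [preperfect_iff_nhds]
  intro x hx U hU
  obtain ⟨δ, hδ, hU'⟩ := Metric.mem_nhds_iff.1 hU
  have h1 := (w_tendsto D).eventually (gt_mem_nhds (show (0:ℝ) < δ / 10 by linarith))
  obtain ⟨n, hn⟩ := h1.exists
  have hw := w_step D n
  have hwp := w_pos D n
  have hwp1 := w_pos D (n + 1)
  obtain ⟨p, hp, hxp⟩ := hx n
  by_cases h : p = x
  · subst h
    refine ⟨p + 3 * (S (n + 1)).w, ⟨hU' ?_, ?_⟩, ?_⟩
    · rw [Metric.mem_ball, Real.dist_eq, add_sub_cancel_left, abs_of_pos (by linarith)]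
      linarith
    · apply X_sub_E D (n := n + 1)
      rw [(D.rel n).X_eq]
      apply Finset.mem_union_right
      exact Finset.mem_image_of_mem _ hp
    · intro h; linarith
  · refine ⟨p, ⟨hU' ?_, X_sub_E D hp⟩, h⟩
    rw [Metric.mem_ball, Real.dist_eq, abs_sub_comm]
    linarith

theorem E_uncountable : ¬ (E S).Countable := by
  intro hc
  have h5 : Cardinal.mk (ℕ → Bool) = Cardinal.continuum := by simp
  have hperf : Perfect (E S) := ⟨isClosed_E, preperfect_E D⟩
  have hne : (E S).Nonempty := ⟨0, X_sub_E D (n := 0) (by rw [D.zero]; simp)⟩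
  obtain ⟨f, hf, -, hinj⟩ := hperf.exists_nat_bool_injection hne
  have h1 : (range f).Countable := hc.mono hf
  have h2 : Countable (ℕ → Bool) := by
    have h3 : Countable (range f) := h1.to_subtype
    exact (Equiv.ofInjective f hinj).injective.countable
  have h4 : Cardinal.mk (ℕ → Bool) ≤ Cardinal.aleph0 := Cardinal.mk_le_aleph0_iff.2 h2
  rw [h5] at h4
  exact absurd h4 (not_le.2 Cardinal.aleph0_lt_continuum)

theorem E_no_interval {a b : ℝ} (hab : a < b) : ¬ (Icc a b ⊆ E S) := by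
  intro h
  have h1 := (w_tendsto D).eventually (gt_mem_nhds (show (0:ℝ) < (b - a) / 10 by linarith))
  obtain ⟨n, hn⟩ := h1.exists
  have hw := w_step D n
  have hwp := w_pos D n
  have hwp1 := w_pos D (n + 1)
  obtain ⟨p, hp, hap⟩ := h ⟨le_refl a, hab.le⟩ n
  rw [abs_le] at hap
  obtain ⟨q, hq, hq'⟩ := h (show p + (S n).w ∈ Icc a b from ⟨by linarith, by linarith⟩) n
  rw [abs_le] at hq'
  have hpq : p ≠ q := by
    intro h'; subst h'
    linarith [hq'.2]
  have := (D.inv n).sep p hp q hq hpq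
  rw [le_abs] at this
  rcases this with h' | h' <;> linarith [hq'.1, hq'.2]

end

/-- composition of the wiggles `n+1, …, n+k` -/
noncomputable def T (S : ℕ → St) : ℕ → ℕ → ℂ → ℂ
  | _, 0 => fun z => z
  | n, k + 1 => fun z => psi (S (n + 1)).X (S (n + 1)).w (T S (n + 1) k z)

section

variable {S : ℕ → St} (D : Data S)
include D

theorem F_T (k : ℕ) : ∀ (n : ℕ) (z : ℂ), (S (n + k)).F z = (S n).F (T S n k z) := by
  induction k with
  | zero => intro n z; rfl
  | succ k ih =>
    intro n z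
    have e : n + (k + 1) = (n + 1) + k := by omega
    rw [e, ih (n + 1) z, (D.rel n).F_eq]
    rfl

theorem T_move (k : ℕ) : ∀ (n : ℕ) (z : ℂ), ‖T S n k z - z‖ ≤ 4 / 100 * (S (n + 1)).w := by
  induction k with
  | zero =>
    intro n z
    have := w_pos D (n + 1)
    simp [T]; linarith
  | succ k ih =>
    intro n z
    have h1 := ih (n + 1) z
    have h2 := psi_move (w_pos D (n + 1)) (D.inv (n + 1)).sep (T S (n + 1) k z)
    have h3 := w_step D (n + 1)
    have h4 := w_pos D (n + 1)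
    have h5 : ‖T S n (k + 1) z - z‖ ≤ ‖psi (S (n + 1)).X (S (n + 1)).w (T S (n + 1) k z)
        - T S (n + 1) k z‖ + ‖T S (n + 1) k z - z‖ := by
      have := norm_add_le (psi (S (n + 1)).X (S (n + 1)).w (T S (n + 1) k z)
        - T S (n + 1) k z) (T S (n + 1) k z - z)
      rw [sub_add_sub_cancel] at this
      exact this
    linarith

end

theorem unif_lim {u : ℕ → ℂ → ℂ} (hc : ∀ n, Continuous (u n)) {r C : ℝ} (hr0 : 0 ≤ r)
    (hr : r < 1) (h : ∀ n z, dist (u n z) (u (n + 1) z) ≤ C * r ^ n) :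
    ∃ f : ℂ → ℂ, Continuous f ∧ ∀ n z, dist (u n z) (f z) ≤ C * r ^ n / (1 - r) := by
  have hcs : ∀ z, ∃ a, Tendsto (fun n => u n z) atTop (𝓝 a) := fun z =>
    cauchySeq_tendsto_of_complete (cauchySeq_of_le_geometric r C hr (fun n => h n z))
  choose f hf using hcs
  have hb : ∀ n z, dist (u n z) (f z) ≤ C * r ^ n / (1 - r) := fun n z =>
    dist_le_of_le_geometric_of_tendsto r C hr (fun n => h n z) (hf z) n
  refine ⟨f, ?_, hb⟩
  have hlim : Tendsto (fun n => C * r ^ n / (1 - r)) atTop (𝓝 0) := by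
    have := (tendsto_pow_atTop_nhds_zero_of_lt_one hr0 hr).const_mul C
    simpa using this.div_const (1 - r)
  have hu : TendstoUniformly u f atTop := by
    rw [Metric.tendstoUniformly_iff]
    intro ε hε
    filter_upwards [hlim.eventually (gt_mem_nhds hε)] with n hn z
    rw [dist_comm]
    exact (hb n z).trans_lt hn
  exact hu.continuous (Frequently.of_forall hc)

theorem exists_limit {S : ℕ → St} (D : Data S) : ∃ f : ℂ ≃ₜ ℂ, ∀ z,
    Tendsto (fun n => (S n).F z) atTop (𝓝 (f z)) := by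
  have hF : ∀ n z, dist ((S n).F z) ((S (n + 1)).F z) ≤ 1 * (1 / 5 : ℝ) ^ n := by
    intro n z
    rw [(D.rel n).F_eq, dist_eq_norm]
    have h1 := (D.inv n).lip z (psi (S (n + 1)).X (S (n + 1)).w z)
    have h2 := psi_move (w_pos D (n + 1)) (D.inv (n + 1)).sep z
    rw [norm_sub_rev] at h2
    have h3 := (D.inv (n + 1)).w_le
    have h4 : (2:ℝ) ^ n * ‖z - psi (S (n + 1)).X (S (n + 1)).w z‖ ≤ 2 ^ n * (1 / 10) ^ n := by
      apply mul_le_mul_of_nonneg_left _ (by positivity)
      have h5 : (1 / 10 : ℝ) ^ (n + 1) ≤ (1 / 10) ^ n :=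
        pow_le_pow_of_le_one (by norm_num) (by norm_num) (by omega)
      have h6 : (0:ℝ) < (1 / 10) ^ n := by positivity
      nlinarith
    rw [← mul_pow] at h4
    norm_num at h4 h1 ⊢
    linarith
  have hG : ∀ n z, dist ((S n).F.symm z) ((S (n + 1)).F.symm z) ≤ 1 * (1 / 10 : ℝ) ^ n := by
    intro n u
    set v := (S (n + 1)).F.symm u with hv
    have h1 : (S (n + 1)).F v = u := (S (n + 1)).F.apply_symm_apply u
    rw [(D.rel n).F_eq] at h1
    have h2 : (S n).F.symm u = psi (S (n + 1)).X (S (n + 1)).w v := by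
      rw [← h1]; exact (S n).F.symm_apply_apply _
    rw [h2, dist_eq_norm]
    have h3 := psi_move (w_pos D (n + 1)) (D.inv (n + 1)).sep v
    have h4 := (D.inv (n + 1)).w_le
    have h5 : (1 / 10 : ℝ) ^ (n + 1) ≤ (1 / 10) ^ n :=
      pow_le_pow_of_le_one (by norm_num) (by norm_num) (by omega)
    have h6 : (0:ℝ) < (1 / 10) ^ n := by positivity
    linarith
  obtain ⟨f, hfc, hf⟩ := unif_lim (fun n => (S n).F.continuous) (by norm_num) (by norm_num) hF
  obtain ⟨g, hgc, hg⟩ := unif_lim (fun n => (S n).F.symm.continuous) (by norm_num)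
    (by norm_num) hG
  have t5 : Tendsto (fun n : ℕ => (1 / 5 : ℝ) ^ n) atTop (𝓝 0) :=
    tendsto_pow_atTop_nhds_zero_of_lt_one (by norm_num) (by norm_num)
  have t10 : Tendsto (fun n : ℕ => (1 / 10 : ℝ) ^ n) atTop (𝓝 0) :=
    tendsto_pow_atTop_nhds_zero_of_lt_one (by norm_num) (by norm_num)
  have tf : ∀ z, Tendsto (fun n => (S n).F z) atTop (𝓝 (f z)) := by
    intro z
    rw [tendsto_iff_dist_tendsto_zero]
    refine squeeze_zero (fun n => dist_nonneg) (fun n => hf n z) ?_
    simpa using (t5.const_mul 1).div_const (1 - 1 / 5)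
  have hfg : ∀ u, f (g u) = u := by
    intro u
    have hb : ∀ n : ℕ, dist (f (g u)) u ≤ 4 * (1 / 5 : ℝ) ^ n := by
      intro n
      have h1 := hf n (g u)
      have h2 : dist ((S n).F (g u)) ((S n).F ((S n).F.symm u))
          ≤ 2 ^ n * ((1 / 10) ^ n / (1 - 1 / 10)) := by
        rw [dist_eq_norm]
        refine ((D.inv n).lip _ _).trans ?_
        apply mul_le_mul_of_nonneg_left _ (by positivity)
        rw [← dist_eq_norm, dist_comm]
        have := hg n u
        rw [one_mul] at this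
        exact this
      rw [(S n).F.apply_symm_apply] at h2
      have h3 := dist_triangle (f (g u)) ((S n).F (g u)) u
      rw [dist_comm (f (g u)) ((S n).F (g u))] at h3
      have h4 : (2:ℝ) ^ n * ((1 / 10) ^ n / (1 - 1 / 10)) = (1 / 5) ^ n * (10 / 9) := by
        rw [← mul_div_assoc, ← mul_pow]; norm_num; ring
      rw [h4] at h2
      rw [one_mul] at h1
      have h5 : (0:ℝ) < (1 / 5) ^ n := by positivity
      have h6 : (1 / 5 : ℝ) ^ n / (1 - 1 / 5) = (1 / 5) ^ n * (5 / 4) := by ring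
      rw [h6] at h1
      linarith
    have hle : dist (f (g u)) u ≤ 0 := by
      have := t5.const_mul 4
      rw [mul_zero] at this
      exact ge_of_tendsto' this hb
    exact dist_le_zero.1 hle
  have hgf : ∀ z, g (f z) = z := by
    intro z
    have h1 : Tendsto (fun n => g ((S n).F z)) atTop (𝓝 (g (f z))) :=
      (hgc.tendsto (f z)).comp (tf z)
    have h2 : Tendsto (fun n => g ((S n).F z)) atTop (𝓝 z) := by
      rw [tendsto_iff_dist_tendsto_zero]
      refine squeeze_zero (fun n => dist_nonneg) (fun n => ?_)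
        (show Tendsto (fun n : ℕ => (1 / 10 : ℝ) ^ n / (1 - 1 / 10)) atTop (𝓝 0) by
          simpa using t10.div_const (1 - 1 / 10))
      have := hg n ((S n).F z)
      rw [(S n).F.symm_apply_apply, dist_comm, one_mul] at this
      exact this
    exact tendsto_nhds_unique h1 h2
  refine ⟨⟨⟨f, g, hgf, hfg⟩, hfc, hgc⟩, fun z => tf z⟩

end Pool.Agent.R979.QC
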