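import Mathlib

set_option autoImplicit false
open Complex Metric Set Filter Topology

namespace Pool.Agent.R979.QC

/-- piecewise linear cutoff -/
noncomputable def chi (x : ℝ) : ℝ := max 0 (min 1 (2 - 2 * |x|))

theorem chi_nonneg (x : ℝ) : 0 ≤ chi x := le_max_left _ _

theorem chi_le_one (x : ℝ) : chi x ≤ 1 := max_le zero_le_one (min_le_left _ _)

theorem chi_zero {x : ℝ} (h : 1 ≤ |x|) : chi x = 0 := by
  unfold chi
  apply max_eq_left
  exact (min_le_right _ _).trans (by linarith)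

theorem chi_one {x : ℝ} (h : |x| ≤ 1 / 2) : chi x = 1 := by
  unfold chi
  rw [min_eq_left (by linarith)]
  exact max_eq_right zero_le_one

theorem chi_le {x : ℝ} (h : |x| ≤ 1) : chi x ≤ 2 * (1 - |x|) := by
  unfold chi
  apply max_le (by linarith)
  exact (min_le_right _ _).trans (by linarith)

theorem chi_lip (x y : ℝ) : |chi x - chi y| ≤ 2 * |x - y| := by
  unfold chi
  have h1 : |max 0 (min 1 (2 - 2 * |x|)) - max 0 (min 1 (2 - 2 * |y|))|
      ≤ |min 1 (2 - 2 * |x|) - min 1 (2 - 2 * |y|)| := by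
    have := abs_max_sub_max_le_max (0:ℝ) (min 1 (2 - 2 * |x|)) 0 (min 1 (2 - 2 * |y|))
    simpa using this
  have h2 : |min 1 (2 - 2 * |x|) - min 1 (2 - 2 * |y|)| ≤ |(2 - 2 * |x|) - (2 - 2 * |y|)| := by
    have := abs_min_sub_min_le_max (1:ℝ) (2 - 2 * |x|) 1 (2 - 2 * |y|)
    simpa using this
  have h3 : |(2 - 2 * |x|) - (2 - 2 * |y|)| = 2 * abs (|x| - |y|) := by
    rw [show (2 - 2 * |x|) - (2 - 2 * |y|) = (-2) * (|x| - |y|) by ring, abs_mul]
    norm_num
  have h4 := abs_abs_sub_abs_le x y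
  linarith

theorem exp_bd {x : ℝ} (h : |x| ≤ 1) : Real.exp x ≤ 3 := by
  have h1 : Real.exp x ≤ Real.exp 1 := Real.exp_le_exp.2 ((le_abs_self x).trans h)
  have := Real.exp_one_lt_d9
  linarith

theorem norm_sinh_le {z : ℂ} (h : |z.re| ≤ 1) : ‖Complex.sinh z‖ ≤ 3 := by
  rw [Complex.sinh, norm_div]
  have h1 : ‖cexp z‖ ≤ 3 := by rw [Complex.norm_exp]; exact exp_bd h
  have h2 : ‖cexp (-z)‖ ≤ 3 := by
    rw [Complex.norm_exp]; exact exp_bd (by simpa using h)
  have h3 := norm_sub_le (cexp z) (cexp (-z))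
  have h4 : ‖(2:ℂ)‖ = 2 := by simp
  rw [h4]
  linarith

theorem norm_cosh_le {z : ℂ} (h : |z.re| ≤ 1) : ‖Complex.cosh z‖ ≤ 3 := by
  rw [Complex.cosh, norm_div]
  have h1 : ‖cexp z‖ ≤ 3 := by rw [Complex.norm_exp]; exact exp_bd h
  have h2 : ‖cexp (-z)‖ ≤ 3 := by
    rw [Complex.norm_exp]; exact exp_bd (by simpa using h)
  have h3 := norm_add_le (cexp z) (cexp (-z))
  have h4 : ‖(2:ℂ)‖ = 2 := by simp
  rw [h4]
  linarith

theorem convex_strip (a : ℝ) : Convex ℝ {z : ℂ | |z.re| ≤ a} := by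
  have : {z : ℂ | |z.re| ≤ a} = (fun z : ℂ => z.re) ⁻¹' (Icc (-a) a) := by
    ext z; simp [abs_le]
  rw [this]
  exact (convex_Icc _ _).is_linear_preimage (Complex.reLm.isLinear)

theorem sinh_lip {z z' : ℂ} (h : |z.re| ≤ 1) (h' : |z'.re| ≤ 1) :
    ‖Complex.sinh z - Complex.sinh z'‖ ≤ 3 * ‖z - z'‖ := by
  refine Convex.norm_image_sub_le_of_norm_deriv_le (𝕜 := ℂ) (f := Complex.sinh)
    (s := {z : ℂ | |z.re| ≤ 1}) (C := 3) (fun x _ => Complex.differentiable_sinh x) ?_
    (convex_strip 1) h' h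
  intro x hx
  rw [Complex.deriv_sinh]
  exact norm_cosh_le hx

theorem cosh_lip {z z' : ℂ} (h : |z.re| ≤ 1) (h' : |z'.re| ≤ 1) :
    ‖Complex.cosh z - Complex.cosh z'‖ ≤ 3 * ‖z - z'‖ := by
  refine Convex.norm_image_sub_le_of_norm_deriv_le (𝕜 := ℂ) (f := Complex.cosh)
    (s := {z : ℂ | |z.re| ≤ 1}) (C := 3) (fun x _ => Complex.differentiable_cosh x) ?_
    (convex_strip 1) h' h
  intro x hx
  rw [Complex.deriv_cosh]
  exact norm_sinh_le hx

theorem re_near {z a : ℂ} {r : ℝ} (ha : ‖a - z‖ ≤ r) : |a.re| ≤ |z.re| + r := by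
  have h1 := Complex.abs_re_le_norm (a - z)
  rw [Complex.sub_re] at h1
  have h2 := abs_sub_abs_le_abs_sub a.re z.re
  linarith

theorem sinh_near {z a b : ℂ} {r : ℝ} (hz : |z.re| ≤ 1 / 2) (hr : r ≤ 1 / 2)
    (ha : ‖a - z‖ ≤ r) (hb : ‖b - z‖ ≤ r) :
    ‖Complex.sinh a - Complex.sinh b - Complex.cosh z * (a - b)‖ ≤ 3 * r * ‖a - b‖ := by
  have key : ‖(Complex.sinh a - Complex.cosh z * a) - (Complex.sinh b - Complex.cosh z * b)‖
      ≤ 3 * r * ‖a - b‖ := by
    refine Convex.norm_image_sub_le_of_norm_deriv_le (𝕜 := ℂ)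
      (f := fun t => Complex.sinh t - Complex.cosh z * t)
      (s := closedBall z r) (C := 3 * r) (fun x _ => ?_) ?_
      (convex_closedBall z r) ?_ ?_
    · exact (Complex.differentiable_sinh x).sub ((differentiableAt_const _).mul differentiableAt_id)
    · intro x hx
      rw [mem_closedBall, dist_eq_norm] at hx
      have hd : deriv (fun t => Complex.sinh t - Complex.cosh z * t) x
          = Complex.cosh x - Complex.cosh z := by
        have h1 := (Complex.hasDerivAt_sinh x).sub ((hasDerivAt_id x).const_mul (Complex.cosh z))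
        have h2 := h1.deriv
        simp only [mul_one, id] at h2
        exact h2
      rw [hd]
      have hx1 : |x.re| ≤ 1 := by
        have := re_near hx
        linarith
      have := cosh_lip hx1 (by linarith : |z.re| ≤ 1)
      linarith
    · rw [mem_closedBall, dist_eq_norm]; exact hb
    · rw [mem_closedBall, dist_eq_norm]; exact ha
  have e : Complex.sinh a - Complex.sinh b - Complex.cosh z * (a - b)
      = (Complex.sinh a - Complex.cosh z * a) - (Complex.sinh b - Complex.cosh z * b) := by ring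
  rw [e]; exact key

/-- the model wiggle -/
noncomputable def Th (z : ℂ) : ℂ := (chi z.re : ℂ) * (-I * Complex.sinh z)

theorem Th_zero {z : ℂ} (h : 1 ≤ |z.re|) : Th z = 0 := by
  unfold Th; rw [chi_zero h]; simp

theorem Th_core {z : ℂ} (h : |z.re| ≤ 1 / 2) : Th z = -I * Complex.sinh z := by
  unfold Th; rw [chi_one h]; simp

theorem norm_chi (x : ℝ) : ‖(chi x : ℂ)‖ = chi x := by
  rw [Complex.norm_real, Real.norm_eq_abs, abs_of_nonneg (chi_nonneg x)]

theorem Th_norm (z : ℂ) : ‖Th z‖ ≤ 3 := by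
  by_cases h : |z.re| ≤ 1
  · unfold Th
    rw [norm_mul, norm_mul, norm_neg, Complex.norm_I, one_mul, norm_chi]
    calc chi z.re * ‖Complex.sinh z‖ ≤ 1 * 3 :=
          mul_le_mul (chi_le_one _) (norm_sinh_le h) (norm_nonneg _) zero_le_one
      _ = 3 := by norm_num
  · rw [Th_zero (le_of_lt (not_le.1 h))]; simp

theorem Th_lip_aux {z z' : ℂ} (h : |z.re| ≤ 1) (h' : 1 ≤ |z'.re|) :
    ‖Th z - Th z'‖ ≤ 9 * ‖z - z'‖ := by
  rw [Th_zero h', sub_zero]
  have h1 := Complex.abs_re_le_norm (z' - z)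
  rw [Complex.sub_re, norm_sub_rev] at h1
  have h2 := abs_sub_abs_le_abs_sub z'.re z.re
  have h3 := chi_le h
  unfold Th
  rw [norm_mul, norm_mul, norm_neg, Complex.norm_I, one_mul, norm_chi]
  calc chi z.re * ‖Complex.sinh z‖ ≤ (2 * ‖z - z'‖) * 3 := by
        apply mul_le_mul _ (norm_sinh_le h) (norm_nonneg _) (by positivity)
        linarith
    _ ≤ 9 * ‖z - z'‖ := by nlinarith [norm_nonneg (z - z')]

theorem Th_lip (z z' : ℂ) : ‖Th z - Th z'‖ ≤ 9 * ‖z - z'‖ := by
  by_cases h : |z.re| ≤ 1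
  · by_cases h' : |z'.re| ≤ 1
    · have e : Th z - Th z' = (chi z.re : ℂ) * (-I * (Complex.sinh z - Complex.sinh z'))
          + ((chi z.re - chi z'.re : ℝ) : ℂ) * (-I * Complex.sinh z') := by
        unfold Th; push_cast; ring
      rw [e]
      have n1 : ‖(chi z.re : ℂ) * (-I * (Complex.sinh z - Complex.sinh z'))‖ ≤ 3 * ‖z - z'‖ := by
        rw [norm_mul, norm_mul, norm_neg, Complex.norm_I, one_mul, norm_chi]
        calc chi z.re * ‖Complex.sinh z - Complex.sinh z'‖ ≤ 1 * (3 * ‖z - z'‖) :=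
              mul_le_mul (chi_le_one _) (sinh_lip h h') (norm_nonneg _) zero_le_one
          _ = 3 * ‖z - z'‖ := one_mul _
      have n2 : ‖((chi z.re - chi z'.re : ℝ) : ℂ) * (-I * Complex.sinh z')‖ ≤ 6 * ‖z - z'‖ := by
        rw [norm_mul, norm_mul, norm_neg, Complex.norm_I, one_mul, Complex.norm_real,
          Real.norm_eq_abs]
        have h1 := Complex.abs_re_le_norm (z - z')
        rw [Complex.sub_re] at h1
        have h2 := chi_lip z.re z'.re
        calc |chi z.re - chi z'.re| * ‖Complex.sinh z'‖ ≤ (2 * ‖z - z'‖) * 3 :=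
              mul_le_mul (by linarith) (norm_sinh_le h') (norm_nonneg _) (by positivity)
          _ = 6 * ‖z - z'‖ := by ring
      calc _ ≤ _ := norm_add_le _ _
        _ ≤ 3 * ‖z - z'‖ + 6 * ‖z - z'‖ := add_le_add n1 n2
        _ = 9 * ‖z - z'‖ := by ring
    · exact Th_lip_aux h (le_of_lt (not_le.1 h'))
  · have h1 := le_of_lt (not_le.1 h)
    by_cases h' : |z'.re| ≤ 1
    · rw [norm_sub_rev, norm_sub_rev z z']
      exact Th_lip_aux h' h1
    · rw [Th_zero h1, Th_zero (le_of_lt (not_le.1 h'))]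
      simp

theorem Th_vert (t : ℝ) : Th (I * (t : ℂ)) = (Real.sin t : ℂ) := by
  have h : |(I * (t:ℂ)).re| ≤ 1 / 2 := by simp
  rw [Th_core h, mul_comm I (t:ℂ), Complex.sinh_mul_I, Complex.ofReal_sin]
  linear_combination (-Complex.sin (t:ℂ)) * Complex.I_sq

end Pool.Agent.R979.QC
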