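import Pool.Agent.R979.QC.Model

set_option autoImplicit false
open Complex Metric Set Filter Topology

namespace Pool.Agent.R979.QC

/-- separated centers -/
def Sep (X : Finset ℝ) (w : ℝ) : Prop := ∀ p ∈ X, ∀ q ∈ X, p ≠ q → 3 * w ≤ |p - q|

noncomputable def V (X : Finset ℝ) (w : ℝ) (z : ℂ) : ℂ :=
  ∑ p ∈ X, (w : ℂ) * Th ((z - (p : ℂ)) / (w : ℂ))

noncomputable def psi (X : Finset ℝ) (w : ℝ) (z : ℂ) : ℂ := z + (1 / 100 : ℂ) * V X w z

theorem re_div (z : ℂ) (p w : ℝ) : ((z - (p : ℂ)) / (w : ℂ)).re = (z.re - p) / w := by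
  rw [Complex.div_ofReal_re]; simp

variable {X : Finset ℝ} {w : ℝ}

theorem term_zero (hw : 0 < w) {z : ℂ} {p : ℝ} (h : w ≤ |z.re - p|) :
    (w : ℂ) * Th ((z - (p : ℂ)) / (w : ℂ)) = 0 := by
  rw [Th_zero, mul_zero]
  rw [re_div, abs_div, abs_of_pos hw, le_div_iff₀ hw]
  linarith

theorem V_zero (hw : 0 < w) {z : ℂ} (h : ∀ p ∈ X, w ≤ |z.re - p|) : V X w z = 0 :=
  Finset.sum_eq_zero fun p hp => term_zero hw (h p hp)

theorem V_eq (hw : 0 < w) (hX : Sep X w) {z : ℂ} {p : ℝ} (hp : p ∈ X)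
    (h : |z.re - p| ≤ 2 * w) : V X w z = (w : ℂ) * Th ((z - (p : ℂ)) / (w : ℂ)) := by
  unfold V
  rw [Finset.sum_eq_single p]
  · intro q hq hqp
    apply term_zero hw
    have h1 := hX p hp q hq (Ne.symm hqp)
    have h2 : |p - q| ≤ |z.re - p| + |z.re - q| := by
      have := abs_sub_le p z.re q
      rw [abs_sub_comm p z.re] at this
      exact this
    linarith
  · intro h'; exact absurd hp h'

theorem V_cases (hw : 0 < w) (hX : Sep X w) (z : ℂ) :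
    (∀ p ∈ X, w ≤ |z.re - p|) ∨ ∃ p ∈ X, |z.re - p| < w := by
  by_cases h : ∃ p ∈ X, |z.re - p| < w
  · exact Or.inr h
  · left
    intro p hp
    by_contra hc
    exact h ⟨p, hp, not_le.1 hc⟩

theorem V_norm (hw : 0 < w) (hX : Sep X w) (z : ℂ) : ‖V X w z‖ ≤ 3 * w := by
  rcases V_cases hw hX z with h | ⟨p, hp, h⟩
  · rw [V_zero hw h]; simp; exact hw.le
  · rw [V_eq hw hX hp (by linarith), norm_mul, Complex.norm_real, Real.norm_eq_abs,
      abs_of_pos hw]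
    have := Th_norm ((z - (p : ℂ)) / (w : ℂ))
    nlinarith

theorem term_lip (hw : 0 < w) (z z' : ℂ) (p : ℝ) :
    ‖(w : ℂ) * Th ((z - (p : ℂ)) / (w : ℂ)) - (w : ℂ) * Th ((z' - (p : ℂ)) / (w : ℂ))‖
      ≤ 9 * ‖z - z'‖ := by
  rw [← mul_sub, norm_mul, Complex.norm_real, Real.norm_eq_abs, abs_of_pos hw]
  have h := Th_lip ((z - (p : ℂ)) / (w : ℂ)) ((z' - (p : ℂ)) / (w : ℂ))
  have e : (z - (p : ℂ)) / (w : ℂ) - (z' - (p : ℂ)) / (w : ℂ) = (z - z') / (w:ℂ) := by ring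
  rw [e, norm_div, Complex.norm_real, Real.norm_eq_abs, abs_of_pos hw] at h
  calc w * ‖_‖ ≤ w * (9 * (‖z - z'‖ / w)) := mul_le_mul_of_nonneg_left h hw.le
    _ = 9 * ‖z - z'‖ := by field_simp

theorem V_lip_aux (hw : 0 < w) (hX : Sep X w) (z z' : ℂ) {p : ℝ} (hp : p ∈ X)
    (h : |z.re - p| < w) : ‖V X w z - V X w z'‖ ≤ 9 * ‖z - z'‖ := by
  by_cases h' : |z'.re - p| ≤ 2 * w
  · rw [V_eq hw hX hp (by linarith), V_eq hw hX hp h']
    exact term_lip hw z z' p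
  · push Not at h'
    have h1 := Complex.abs_re_le_norm (z' - z)
    rw [Complex.sub_re, norm_sub_rev] at h1
    have h2 : |z'.re - p| ≤ |z'.re - z.re| + |z.re - p| := abs_sub_le _ _ _
    have h3 := V_norm hw hX z
    have h4 := V_norm hw hX z'
    have h5 := norm_sub_le (V X w z) (V X w z')
    linarith

theorem V_lip (hw : 0 < w) (hX : Sep X w) (z z' : ℂ) :
    ‖V X w z - V X w z'‖ ≤ 9 * ‖z - z'‖ := by
  rcases V_cases hw hX z with h | ⟨p, hp, h⟩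
  · rcases V_cases hw hX z' with h' | ⟨p, hp, h'⟩
    · rw [V_zero hw h, V_zero hw h']; simp
    · rw [norm_sub_rev, norm_sub_rev z z']
      exact V_lip_aux hw hX z' z hp h'
  · exact V_lip_aux hw hX z z' hp h

theorem norm_hundred : ‖(1 / 100 : ℂ)‖ = 1 / 100 := by
  rw [norm_div]; simp

theorem psi_lip (hw : 0 < w) (hX : Sep X w) (z z' : ℂ) :
    ‖psi X w z - psi X w z' - (z - z')‖ ≤ 9 / 100 * ‖z - z'‖ := by
  have e : psi X w z - psi X w z' - (z - z') = (1 / 100 : ℂ) * (V X w z - V X w z') := by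
    unfold psi; ring
  rw [e, norm_mul, norm_hundred]
  have := V_lip hw hX z z'
  linarith

theorem psi_upper (hw : 0 < w) (hX : Sep X w) (z z' : ℂ) :
    ‖psi X w z - psi X w z'‖ ≤ 109 / 100 * ‖z - z'‖ := by
  have h := psi_lip hw hX z z'
  have h2 := norm_add_le (psi X w z - psi X w z' - (z - z')) (z - z')
  rw [sub_add_cancel] at h2
  linarith

theorem psi_lower (hw : 0 < w) (hX : Sep X w) (z z' : ℂ) :
    91 / 100 * ‖z - z'‖ ≤ ‖psi X w z - psi X w z'‖ := by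
  have h := psi_lip hw hX z z'
  have h2 := norm_sub_le (psi X w z - psi X w z') (psi X w z - psi X w z' - (z - z'))
  rw [sub_sub_cancel] at h2
  linarith

theorem psi_move (hw : 0 < w) (hX : Sep X w) (z : ℂ) : ‖psi X w z - z‖ ≤ 3 / 100 * w := by
  have e : psi X w z - z = (1 / 100 : ℂ) * V X w z := by unfold psi; ring
  rw [e, norm_mul, norm_hundred]
  have := V_norm hw hX z
  linarith

theorem psi_id (hw : 0 < w) {z : ℂ} (h : ∀ p ∈ X, w ≤ |z.re - p|) : psi X w z = z := by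
  unfold psi; rw [V_zero hw h]; simp

theorem psi_eq (hw : 0 < w) (hX : Sep X w) {z : ℂ} {p : ℝ} (hp : p ∈ X)
    (h : |z.re - p| ≤ 2 * w) :
    psi X w z = z + (1 / 100 : ℂ) * ((w : ℂ) * Th ((z - (p : ℂ)) / (w : ℂ))) := by
  unfold psi; rw [V_eq hw hX hp h]

theorem psi_approx (hw : 0 < w) (hX : Sep X w) :
    ApproximatesLinearOn (psi X w) ((ContinuousLinearEquiv.refl ℝ ℂ : ℂ ≃L[ℝ] ℂ) : ℂ →L[ℝ] ℂ)
      univ (9 / 100 : NNReal) := by
  intro z _ z' _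
  have := psi_lip hw hX z z'
  simpa using this

/-- the wiggle as a homeomorphism -/
noncomputable def psiH (hw : 0 < w) (hX : Sep X w) : ℂ ≃ₜ ℂ :=
  (psi_approx hw hX).toHomeomorph (psi X w) (Or.inr (by
    have : ‖(((ContinuousLinearEquiv.refl ℝ ℂ).symm : ℂ ≃L[ℝ] ℂ) : ℂ →L[ℝ] ℂ)‖₊ = 1 := by
      have : (((ContinuousLinearEquiv.refl ℝ ℂ).symm : ℂ ≃L[ℝ] ℂ) : ℂ →L[ℝ] ℂ)
          = ContinuousLinearMap.id ℝ ℂ := by ext <;> simp
      rw [this]
      exact ContinuousLinearMap.nnnorm_id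
    rw [this, inv_one]
    rw [← NNReal.coe_lt_coe]
    norm_num))

theorem psiH_apply (hw : 0 < w) (hX : Sep X w) (z : ℂ) : psiH hw hX z = psi X w z := rfl

/-- multiplier at the point `z` near the center `p` -/
noncomputable def mu (w p : ℝ) (z : ℂ) : ℂ :=
  1 + (1 / 100 : ℂ) * (-I * Complex.cosh ((z - (p : ℂ)) / (w : ℂ)))

theorem norm_mu {w p : ℝ} {z : ℂ} (hw : 0 < w) (h : |z.re - p| ≤ w) :
    1 - 3 / 100 * (|z.re - p| / w) ≤ ‖mu w p z‖ := by
  set ζ : ℂ := (z - (p : ℂ)) / (w : ℂ) with hζ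
  have hre : ζ.re = (z.re - p) / w := re_div z p w
  have hre' : |ζ.re| = |z.re - p| / w := by rw [hre, abs_div, abs_of_pos hw]
  have hle : |ζ.re| ≤ 1 := by rw [hre', div_le_one hw]; exact h
  have h1 : ‖Complex.cosh ζ - Complex.cosh ((ζ.im : ℂ) * I)‖ ≤ 3 * |ζ.re| := by
    have h2 := cosh_lip hle (z' := (ζ.im : ℂ) * I) (by simp)
    have e : ζ - (ζ.im : ℂ) * I = (ζ.re : ℂ) := by
      have := Complex.re_add_im ζ
      linear_combination (-1:ℂ) * this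
    rw [e, Complex.norm_real, Real.norm_eq_abs] at h2
    exact h2
  have h3 : Complex.cosh ((ζ.im : ℂ) * I) = (Real.cos ζ.im : ℂ) := by
    rw [Complex.cosh_mul_I, Complex.ofReal_cos]
  rw [h3] at h1
  have e : mu w p z = (1 + (1 / 100 : ℂ) * (-I * (Real.cos ζ.im : ℂ)))
      + (1 / 100 : ℂ) * (-I * (Complex.cosh ζ - (Real.cos ζ.im : ℂ))) := by
    unfold mu; rw [← hζ]; ring
  have n1 : 1 ≤ ‖(1 + (1 / 100 : ℂ) * (-I * (Real.cos ζ.im : ℂ)))‖ := by
    have h4 := Complex.abs_re_le_norm (1 + (1 / 100 : ℂ) * (-I * (Real.cos ζ.im : ℂ)))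
    have h5 : (1 + (1 / 100 : ℂ) * (-I * (Real.cos ζ.im : ℂ))).re = 1 := by
      have h6 : (1 / 100 : ℂ) = ((1 / 100 : ℝ) : ℂ) := by push_cast; ring
      rw [h6, Complex.add_re, Complex.re_ofReal_mul, Complex.mul_re, Complex.ofReal_re,
        Complex.ofReal_im, Complex.neg_re, Complex.I_re]
      simp
    rw [h5] at h4
    simpa using h4
  have n2 : ‖(1 / 100 : ℂ) * (-I * (Complex.cosh ζ - (Real.cos ζ.im : ℂ)))‖
      ≤ 3 / 100 * |ζ.re| := by
    rw [norm_mul, norm_mul, norm_neg, Complex.norm_I, one_mul, norm_hundred]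
    linarith
  have n3 := norm_sub_norm_le (1 + (1 / 100 : ℂ) * (-I * (Real.cos ζ.im : ℂ)))
    (-((1 / 100 : ℂ) * (-I * (Complex.cosh ζ - (Real.cos ζ.im : ℂ)))))
  rw [norm_neg, sub_neg_eq_add, ← e] at n3
  rw [hre'] at n2
  linarith


theorem re_near' {z a : ℂ} {p r : ℝ} (ha : ‖a - z‖ ≤ r) : |a.re - p| ≤ |z.re - p| + r := by
  have h1 := Complex.abs_re_le_norm (a - z)
  rw [Complex.sub_re] at h1
  have h2 : |a.re - p| ≤ |a.re - z.re| + |z.re - p| := abs_sub_le _ _ _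
  linarith

theorem psi_near (hw : 0 < w) (hX : Sep X w) {z : ℂ} {p : ℝ} (hp : p ∈ X)
    (h : |z.re - p| ≤ w / 4) {r : ℝ} (hr : r ≤ w / 4) {u v : ℂ} (hu : ‖u - z‖ ≤ r)
    (hv : ‖v - z‖ ≤ r) :
    ‖psi X w u - psi X w v - mu w p z * (u - v)‖ ≤ 3 / 100 * (r / w) * ‖u - v‖ := by
  have hu1 := re_near' (p := p) hu
  have hv1 := re_near' (p := p) hv
  have hwc : (w : ℂ) ≠ 0 := by exact_mod_cast hw.ne'
  set ζ : ℂ := (z - (p : ℂ)) / (w : ℂ) with hζ
  set a : ℂ := (u - (p : ℂ)) / (w : ℂ) with ha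
  set b : ℂ := (v - (p : ℂ)) / (w : ℂ) with hb
  have dv : ∀ t : ℂ, (t - (p:ℂ)) / (w:ℂ) - ζ = (t - z) / (w:ℂ) := by
    intro t; rw [hζ]; ring
  have nd : ∀ t : ℂ, ‖t - z‖ ≤ r → ‖(t - (p:ℂ)) / (w:ℂ) - ζ‖ ≤ r / w := by
    intro t ht
    rw [dv, norm_div, Complex.norm_real, Real.norm_eq_abs, abs_of_pos hw]
    exact div_le_div_of_nonneg_right ht hw.le
  have hζre : |ζ.re| ≤ 1 / 2 := by
    rw [hζ, re_div, abs_div, abs_of_pos hw, div_le_iff₀ hw]; linarith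
  have hare : |a.re| ≤ 1 / 2 := by
    rw [ha, re_div, abs_div, abs_of_pos hw, div_le_iff₀ hw]; linarith
  have hbre : |b.re| ≤ 1 / 2 := by
    rw [hb, re_div, abs_div, abs_of_pos hw, div_le_iff₀ hw]; linarith
  have hr2 : r / w ≤ 1 / 2 := by rw [div_le_iff₀ hw]; linarith
  have key := sinh_near hζre hr2 (nd u hu) (nd v hv)
  rw [← ha, ← hb] at key
  have hab : a - b = (u - v) / (w:ℂ) := by rw [ha, hb]; ring
  have e : psi X w u - psi X w v - mu w p z * (u - v)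
      = (1 / 100 : ℂ) * ((w:ℂ) * (-I * (Complex.sinh a - Complex.sinh b
        - Complex.cosh ζ * (a - b)))) := by
    rw [psi_eq hw hX hp (by linarith : |u.re - p| ≤ 2 * w),
      psi_eq hw hX hp (by linarith : |v.re - p| ≤ 2 * w), ← ha, ← hb, Th_core hare,
      Th_core hbre, hab]
    unfold mu
    rw [← hζ]
    field_simp
    ring
  rw [e, norm_mul, norm_mul, norm_mul, norm_neg, Complex.norm_I, one_mul, norm_hundred,
    Complex.norm_real, Real.norm_eq_abs, abs_of_pos hw]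
  have hn : ‖a - b‖ = ‖u - v‖ / w := by
    rw [hab, norm_div, Complex.norm_real, Real.norm_eq_abs, abs_of_pos hw]
  rw [hn] at key
  calc 1 / 100 * (w * _) ≤ 1 / 100 * (w * (3 * (r / w) * (‖u - v‖ / w))) := by
        gcongr
    _ = 3 / 100 * (r / w) * ‖u - v‖ := by field_simp

end Pool.Agent.R979.QC
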