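import Pool.Agent.R979.QC.Psi

set_option autoImplicit false
open Complex Metric Set Filter Topology

namespace Pool.Agent.R979.QC

structure St where
  w : ℝ
  X : Finset ℝ
  F : ℂ ≃ₜ ℂ

noncomputable def eta (n : ℕ) : ℝ := (1 / 4 : ℝ) ^ (n + 2)
noncomputable def bb (n : ℕ) : ℝ := 1 / 2 + (1 / 2 : ℝ) ^ (n + 1)

theorem eta_pos (n : ℕ) : 0 < eta n := by unfold eta; positivity

theorem eta_le (n : ℕ) : eta n ≤ 1 / 16 := by
  unfold eta
  calc (1 / 4 : ℝ) ^ (n + 2) ≤ (1 / 4 : ℝ) ^ 2 :=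
        pow_le_pow_of_le_one (by norm_num) (by norm_num) (by omega)
    _ = 1 / 16 := by norm_num

theorem bb_half (n : ℕ) : 1 / 2 ≤ bb n := by
  unfold bb
  have : (0:ℝ) < (1 / 2) ^ (n + 1) := by positivity
  linarith

theorem bb_le_one (n : ℕ) : bb n ≤ 1 := by
  unfold bb
  have : (1 / 2 : ℝ) ^ (n + 1) ≤ (1 / 2) ^ 1 :=
    pow_le_pow_of_le_one (by norm_num) (by norm_num) (by omega)
  linarith

theorem bb_step (n : ℕ) : bb (n + 1) ≤ bb n * (1 - 3 / 100 * eta (n + 1)) := by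
  have h1 : eta (n + 1) ≤ (1 / 2 : ℝ) ^ (n + 2) := by
    unfold eta
    calc (1 / 4 : ℝ) ^ (n + 1 + 2) ≤ (1 / 2 : ℝ) ^ (n + 1 + 2) :=
          pow_le_pow_left₀ (by norm_num) (by norm_num) _
      _ ≤ (1 / 2 : ℝ) ^ (n + 2) :=
          pow_le_pow_of_le_one (by norm_num) (by norm_num) (by omega)
  have h2 : bb n = bb (n + 1) + (1 / 2 : ℝ) ^ (n + 2) := by
    unfold bb; ring
  have h3 := bb_le_one n
  have h4 := bb_half n
  have h5 := eta_pos (n + 1)
  nlinarith

def Near (F : ℂ → ℂ) (z l : ℂ) (R ε : ℝ) : Prop :=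
  ∀ u v : ℂ, ‖u - z‖ ≤ R → ‖v - z‖ ≤ R → ‖F u - F v - l * (u - v)‖ ≤ ε * ‖l‖ * ‖u - v‖

theorem Near.upper {F : ℂ → ℂ} {z l : ℂ} {R ε : ℝ} (h : Near F z l R ε) {u v : ℂ}
    (hu : ‖u - z‖ ≤ R) (hv : ‖v - z‖ ≤ R) : ‖F u - F v‖ ≤ (1 + ε) * ‖l‖ * ‖u - v‖ := by
  have h1 := h u v hu hv
  have h2 := norm_add_le (F u - F v - l * (u - v)) (l * (u - v))
  rw [sub_add_cancel, norm_mul] at h2
  linarith

theorem Near.lower {F : ℂ → ℂ} {z l : ℂ} {R ε : ℝ} (h : Near F z l R ε) {u v : ℂ}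
    (hu : ‖u - z‖ ≤ R) (hv : ‖v - z‖ ≤ R) : (1 - ε) * ‖l‖ * ‖u - v‖ ≤ ‖F u - F v‖ := by
  have h1 := h u v hu hv
  have h2 := norm_sub_le (F u - F v) (F u - F v - l * (u - v))
  rw [sub_sub_cancel, norm_mul] at h2
  linarith

def MQ (F : ℂ → ℂ) (z : ℂ) : Prop :=
  ∃ δ > (0:ℝ), ∀ y y' : ℂ, ‖y - z‖ = ‖y' - z‖ → ‖y - z‖ < δ → ‖F y - F z‖ ≤ 2 * ‖F y' - F z‖

structure Inv (n : ℕ) (s : St) : Prop where
  w_pos : 0 < s.w
  w_le : s.w ≤ (1 / 10 : ℝ) ^ n
  sep : Sep s.X s.w
  card : s.X.card ≤ 2 ^ n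
  lip : ∀ u v, ‖s.F u - s.F v‖ ≤ 2 ^ n * ‖u - v‖
  uns : ∀ ε > (0:ℝ), ∃ R > (0:ℝ), ∀ z : ℂ, (∃ p ∈ s.X, |z.re - p| ≤ eta n * s.w) →
    ∃ l : ℂ, bb n ≤ ‖l‖ ∧ Near s.F z l R ε
  mq : ∀ z, MQ s.F z

structure Rel (n : ℕ) (s t : St) : Prop where
  w_pos : 0 < t.w
  w_le : t.w ≤ 1 / 100000 * eta n * s.w
  X_eq : t.X = s.X ∪ s.X.image (fun p => p + 3 * t.w)
  F_eq : ∀ z, t.F z = s.F (psi t.X t.w z)
  near : ∀ z : ℂ, (∃ p ∈ s.X, |z.re - p| ≤ eta n * s.w) →
    ∃ l : ℂ, bb n ≤ ‖l‖ ∧ Near s.F z l (10 * t.w) (1 / 100000)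

theorem sep_step {X : Finset ℝ} {w w' : ℝ} (hw' : 0 < w') (hww : 2 * w' ≤ w) (hX : Sep X w) :
    Sep (X ∪ X.image (fun p => p + 3 * w')) w' := by
  have main : ∀ p ∈ X, ∀ q ∈ X, 3 * w' ≤ |p - (q + 3 * w')| := by
    intro p hp q hq
    by_cases h : p = q
    · subst h
      rw [show p - (p + 3 * w') = -(3 * w') by ring, abs_neg, abs_of_pos (by linarith)]
    · have h1 := hX p hp q hq h
      have h2 : |p - q| ≤ |p - (q + 3 * w')| + |(q + 3 * w') - q| := abs_sub_le _ _ _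
      rw [show (q + 3 * w') - q = 3 * w' by ring, abs_of_pos (by linarith : 0 < 3 * w')] at h2
      linarith
  intro p hp q hq hpq
  rw [Finset.mem_union, Finset.mem_image] at hp hq
  rcases hp with hp | ⟨p0, hp0, rfl⟩
  · rcases hq with hq | ⟨q0, hq0, rfl⟩
    · have := hX p hp q hq hpq; linarith
    · exact main p hp q0 hq0
  · rcases hq with hq | ⟨q0, hq0, rfl⟩
    · rw [abs_sub_comm]; exact main q hq p0 hp0
    · have h1 : p0 ≠ q0 := fun h => hpq (by rw [h])
      have := hX p0 hp0 q0 hq0 h1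
      rw [show p0 + 3 * w' - (q0 + 3 * w') = p0 - q0 by ring]
      linarith

theorem mem_step {X : Finset ℝ} {w' : ℝ} (hw' : 0 < w') {p : ℝ}
    (hp : p ∈ X ∪ X.image (fun p => p + 3 * w')) : ∃ q ∈ X, |p - q| ≤ 3 * w' := by
  rw [Finset.mem_union, Finset.mem_image] at hp
  rcases hp with hp | ⟨p0, hp0, rfl⟩
  · exact ⟨p, hp, by simp; exact hw'.le⟩
  · refine ⟨p0, hp0, ?_⟩
    rw [show p0 + 3 * w' - p0 = 3 * w' by ring, abs_of_pos (by linarith)]

/-- points near a new center are moved into the old core -/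
theorem psi_core {X X' : Finset ℝ} {w w' η : ℝ} (hw' : 0 < w') (hX' : Sep X' w')
    (hXe : X' = X ∪ X.image (fun p => p + 3 * w')) (hη : 10 * w' ≤ η * w) {z : ℂ}
    (h : ∃ p ∈ X', |z.re - p| ≤ 6 * w') : ∃ p ∈ X, |(psi X' w' z).re - p| ≤ η * w := by
  obtain ⟨p, hp, hz⟩ := h
  rw [hXe] at hp
  obtain ⟨q, hq, hpq⟩ := mem_step hw' hp
  refine ⟨q, hq, ?_⟩
  have h1 := psi_move hw' hX' z
  have h2 := re_near' (p := q) h1
  have h3 : |z.re - q| ≤ |z.re - p| + |p - q| := abs_sub_le _ _ _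
  linarith

theorem mq_of_near {F : ℂ → ℂ} {X : Finset ℝ} {w : ℝ} (hw : 0 < w) (hX : Sep X w) {z l : ℂ}
    (h : Near F (psi X w z) l (10 * w) (1 / 100000)) :
    MQ (fun u => F (psi X w u)) z := by
  refine ⟨w, hw, fun y y' hyy hy => ?_⟩
  have u1 := psi_upper hw hX y z
  have u2 := psi_upper hw hX y' z
  have l2 := psi_lower hw hX y' z
  have n0 := norm_nonneg (y - z)
  have a1 := h.upper (u := psi X w y) (v := psi X w z) (by linarith) (by simp; linarith)
  have a2 := h.lower (u := psi X w y') (v := psi X w z) (by rw [← hyy] at u2; linarith)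
    (by simp; linarith)
  have hl := norm_nonneg l
  have b1 : ‖l‖ * ‖psi X w y - psi X w z‖ ≤ ‖l‖ * (109 / 100 * ‖y - z‖) :=
    mul_le_mul_of_nonneg_left u1 hl
  have b2 : ‖l‖ * (91 / 100 * ‖y' - z‖) ≤ ‖l‖ * ‖psi X w y' - psi X w z‖ :=
    mul_le_mul_of_nonneg_left l2 hl
  rw [← hyy] at b2
  have hp : 0 ≤ ‖l‖ * ‖y - z‖ := by positivity
  simp only
  nlinarith

theorem mq_off {F : ℂ → ℂ} {X : Finset ℝ} {w : ℝ} (hw : 0 < w) {z : ℂ}
    (h : ∀ p ∈ X, w < |z.re - p|) (hF : MQ F z) : MQ (fun u => F (psi X w u)) z := by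
  obtain ⟨δ, hδ, H⟩ := hF
  have hev : ∀ᶠ u in 𝓝 z, ∀ p ∈ X, w < |u.re - p| := by
    rw [Filter.eventually_all_finset]
    intro p hp
    have hc : Continuous fun u : ℂ => |u.re - p| := by fun_prop
    exact hc.continuousAt.eventually (lt_mem_nhds (h p hp))
  obtain ⟨δ', hδ', H'⟩ := Metric.eventually_nhds_iff.1 hev
  have hid : ∀ u : ℂ, ‖u - z‖ < δ' → psi X w u = u := by
    intro u hu
    apply psi_id hw
    intro p hp
    exact (H' (by rw [dist_eq_norm]; exact hu) p hp).le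
  refine ⟨min δ δ', lt_min hδ hδ', fun y y' hyy hy => ?_⟩
  have h1 := lt_of_lt_of_le hy (min_le_left _ _)
  have h2 := lt_of_lt_of_le hy (min_le_right _ _)
  simp only
  rw [hid y h2, hid y' (by rw [← hyy]; exact h2), hid z (by simpa using hδ')]
  exact H y y' hyy h1

theorem step (n : ℕ) (s : St) (hs : Inv n s) : ∃ t : St, Inv (n + 1) t ∧ Rel n s t := by
  obtain ⟨R0, hR0, H0⟩ := hs.uns (1 / 100000) (by norm_num)
  have hη := eta_pos n
  have hη2 := eta_le n
  have hw := hs.w_pos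
  set w' : ℝ := min (R0 / 10) (1 / 100000 * eta n * s.w) with hw'def
  have hw' : 0 < w' := lt_min (by linarith) (by positivity)
  have hw'1 : 10 * w' ≤ R0 := by
    have := min_le_left (R0 / 10) (1 / 100000 * eta n * s.w)
    rw [← hw'def] at this; linarith
  have hw'2 : w' ≤ 1 / 100000 * eta n * s.w := min_le_right _ _
  have hηw : eta n * s.w ≤ 1 / 16 * s.w := mul_le_mul_of_nonneg_right hη2 hw.le
  have hww : 2 * w' ≤ s.w := by nlinarith
  have hcore : 10 * w' ≤ eta n * s.w := by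
    have : 0 < eta n * s.w := by positivity
    nlinarith
  set X' : Finset ℝ := s.X ∪ s.X.image (fun p => p + 3 * w') with hX'def
  have hX' : Sep X' w' := sep_step hw' hww hs.sep
  refine ⟨⟨w', X', (psiH hw' hX').trans s.F⟩, ?_, ?_⟩
  · have hF : ∀ u : ℂ, ((psiH hw' hX').trans s.F) u = s.F (psi X' w' u) := fun u => rfl
    have Hn : ∀ z : ℂ, (∃ p ∈ s.X, |z.re - p| ≤ eta n * s.w) →
        ∃ l : ℂ, bb n ≤ ‖l‖ ∧ Near s.F z l (10 * w') (1 / 100000) := by
      intro z hz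
      obtain ⟨l, hl, hN⟩ := H0 z hz
      exact ⟨l, hl, fun u v hu hv => hN u v (hu.trans hw'1) (hv.trans hw'1)⟩
    constructor
    · exact hw'
    · simp only
      rw [pow_succ]
      have := hs.w_le
      have h2 : (0:ℝ) < (1 / 10) ^ n := by positivity
      nlinarith
    · exact hX'
    · simp only
      have h1 := Finset.card_union_le s.X (s.X.image (fun p => p + 3 * w'))
      have h2 := Finset.card_image_le (s := s.X) (f := fun p => p + 3 * w')
      have h3 := hs.card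
      rw [← hX'def] at h1
      rw [pow_succ]
      omega
    · intro u v
      simp only
      rw [hF, hF]
      have h1 := hs.lip (psi X' w' u) (psi X' w' v)
      have h2 := psi_upper hw' hX' u v
      have h3 : (0:ℝ) < 2 ^ n := by positivity
      rw [pow_succ]
      have h4 : (2:ℝ) ^ n * ‖psi X' w' u - psi X' w' v‖ ≤ 2 ^ n * (109 / 100 * ‖u - v‖) :=
        mul_le_mul_of_nonneg_left h2 h3.le
      have h5 : 0 ≤ (2:ℝ) ^ n * ‖u - v‖ := by positivity
      nlinarith
    · intro ε hε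
      simp only
      obtain ⟨R, hR, H⟩ := hs.uns (min ε 1 / 3) (by positivity)
      set e' : ℝ := min ε 1 with he'
      have he'pos : 0 < e' := lt_min hε one_pos
      have he'1 : e' ≤ 1 := min_le_right _ _
      have he'2 : e' ≤ ε := min_le_left _ _
      refine ⟨min (R / 2) (w' * e' / 4), lt_min (by linarith) (by positivity), ?_⟩
      set R' : ℝ := min (R / 2) (w' * e' / 4) with hR'
      have hR'1 : R' ≤ R / 2 := min_le_left _ _
      have hR'2 : R' ≤ w' * e' / 4 := min_le_right _ _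
      have hR'3 : R' ≤ w' / 4 := by nlinarith
      rintro z ⟨p, hp, hz⟩
      have hη1 := eta_le (n + 1)
      have hη1' := eta_pos (n + 1)
      have hzw : |z.re - p| ≤ 1 / 16 * w' :=
        hz.trans (mul_le_mul_of_nonneg_right hη1 hw'.le)
      obtain ⟨l, hl, hN⟩ := H (psi X' w' z)
        (psi_core hw' hX' hX'def hcore ⟨p, hp, by linarith⟩)
      have hmu := norm_mu hw' (z := z) (p := p) (by linarith)
      have hmu2 : |z.re - p| / w' ≤ eta (n + 1) := by
        rw [div_le_iff₀ hw']; exact hz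
      have hmu3 : 1 - 3 / 100 * eta (n + 1) ≤ ‖mu w' p z‖ := by linarith
      have hmu4 : 1 / 2 ≤ ‖mu w' p z‖ := by linarith
      refine ⟨l * mu w' p z, ?_, ?_⟩
      · rw [norm_mul]
        refine (bb_step n).trans ?_
        apply mul_le_mul hl hmu3 (by linarith) (norm_nonneg _)
      · intro u v hu hv
        rw [hF, hF]
        have hu2 := psi_upper hw' hX' u z
        have hv2 := psi_upper hw' hX' v z
        have huv := psi_upper hw' hX' u v
        have k1 := hN (psi X' w' u) (psi X' w' v) (by linarith) (by linarith)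
        have k2 := psi_near hw' hX' hp (by linarith) hR'3 hu hv
        have k3 : R' / w' ≤ e' / 4 := by
          rw [div_le_iff₀ hw']; linarith
        have e : s.F (psi X' w' u) - s.F (psi X' w' v) - l * mu w' p z * (u - v)
            = (s.F (psi X' w' u) - s.F (psi X' w' v) - l * (psi X' w' u - psi X' w' v))
              + l * (psi X' w' u - psi X' w' v - mu w' p z * (u - v)) := by ring
        rw [e]
        have hl0 := norm_nonneg l
        have huv0 := norm_nonneg (u - v)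
        have k4 : ‖l * (psi X' w' u - psi X' w' v - mu w' p z * (u - v))‖
            ≤ ‖l‖ * (3 / 100 * (e' / 4) * ‖u - v‖) := by
          rw [norm_mul]
          apply mul_le_mul_of_nonneg_left _ hl0
          refine k2.trans ?_
          apply mul_le_mul_of_nonneg_right _ huv0
          linarith
        have k5 : e' / 3 * ‖l‖ * ‖psi X' w' u - psi X' w' v‖
            ≤ e' / 3 * ‖l‖ * (109 / 100 * ‖u - v‖) :=
          mul_le_mul_of_nonneg_left huv (by positivity)
        have k6 : e' * ‖l‖ * (1 / 2) * ‖u - v‖ ≤ ε * ‖l * mu w' p z‖ * ‖u - v‖ := by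
          rw [norm_mul]
          apply mul_le_mul_of_nonneg_right _ huv0
          calc e' * ‖l‖ * (1 / 2) ≤ ε * ‖l‖ * ‖mu w' p z‖ := by
                apply mul_le_mul _ hmu4 (by norm_num) (by positivity)
                exact mul_le_mul_of_nonneg_right he'2 hl0
            _ = _ := by ring
        have k7 := norm_add_le
          (s.F (psi X' w' u) - s.F (psi X' w' v) - l * (psi X' w' u - psi X' w' v))
          (l * (psi X' w' u - psi X' w' v - mu w' p z * (u - v)))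
        have k8 : 0 ≤ e' * ‖l‖ * ‖u - v‖ := by positivity
        nlinarith
    · intro z
      simp only
      by_cases h : ∀ p ∈ X', w' < |z.re - p|
      · exact mq_off hw' h (hs.mq z)
      · push Not at h
        obtain ⟨p, hp, hz⟩ := h
        obtain ⟨l, hl, hN⟩ := Hn (psi X' w' z)
          (psi_core hw' hX' hX'def hcore ⟨p, hp, by linarith⟩)
        exact mq_of_near hw' hX' hN
  · constructor
    · exact hw'
    · exact hw'2
    · rfl
    · intro z; rfl
    · intro z hz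
      obtain ⟨l, hl, hN⟩ := H0 z hz
      exact ⟨l, hl, fun u v hu hv => hN u v (hu.trans hw'1) (hv.trans hw'1)⟩

theorem init : Inv 0 ⟨1, {0}, Homeomorph.refl ℂ⟩ := by
  constructor
  · exact one_pos
  · simp
  · intro p hp q hq hpq
    rw [Finset.mem_singleton] at hp hq
    exact absurd (hp.trans hq.symm) hpq
  · simp
  · intro u v; simp
  · intro ε hε
    refine ⟨1, one_pos, fun z _ => ⟨1, ?_, ?_⟩⟩
    · unfold bb; norm_num
    · intro u v _ _
      simp
      positivity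
  · intro z
    refine ⟨1, one_pos, fun y y' h _ => ?_⟩
    simp only [Homeomorph.refl_apply, id]
    rw [← h]
    linarith [norm_nonneg (y - z)]

/-- the sequence of stages -/
noncomputable def seqI : (n : ℕ) → {s : St // Inv n s}
  | 0 => ⟨⟨1, {0}, Homeomorph.refl ℂ⟩, init⟩
  | n + 1 => ⟨Classical.choose (step n (seqI n).1 (seqI n).2),
      (Classical.choose_spec (step n (seqI n).1 (seqI n).2)).1⟩

theorem exists_seq : ∃ S : ℕ → St, (∀ n, Inv n (S n)) ∧ (∀ n, Rel n (S n) (S (n + 1))) ∧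
    (S 0).X = {0} :=
  ⟨fun n => (seqI n).1, fun n => (seqI n).2,
    fun n => (Classical.choose_spec (step n (seqI n).1 (seqI n).2)).2, rfl⟩

end Pool.Agent.R979.QC
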